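import Pool.Agent.K1H94.AND.T2

/-!
# Averaging over tuples of monomials, and the prefix game
-/

set_option autoImplicit false

namespace Pool.Agent.K1H94.AND

open Finset

open scoped Classical in
/-- total number of lonely monomials over all extensions of `C` by `n` monomials -/
noncomputable def tot {V : Type} [Fintype V] (c : Finset V → ℝ) (D : Finset V → Prop) :
    ℕ → Finset V → ℕ
  | 0, C => sg c D C
  | n + 1, C => ∑ T ∈ mon c D, tot c D n (C ∪ T)

open scoped Classical in
/-- number of good extensions of `C` by `n` monomials -/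
noncomputable def cnt {V : Type} [Fintype V] (c : Finset V → ℝ) (D : Finset V → Prop) :
    ℕ → Finset V → ℕ
  | 0, C => if 2 * sg c D C ≤ (mon c D).card then 1 else 0
  | n + 1, C => ∑ T ∈ mon c D, cnt c D n (C ∪ T)

open scoped Classical in
theorem tot_eq {V : Type} [Fintype V] (c : Finset V → ℝ) (D : Finset V → Prop) (n : ℕ) :
    ∀ C : Finset V, tot c D n C =
      ∑ s : Fin n → mon c D, sg c D (C ∪ univ.biUnion (fun i => (s i : Finset V))) := by
  induction n with
  | zero =>
    intro C
    simp [tot]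
  | succ n ih =>
    intro C
    rw [tot]
    rw [← Finset.sum_coe_sort (mon c D)]
    rw [← Equiv.sum_comp (Fin.consEquiv (fun _ : Fin (n + 1) => (mon c D : Type)))]
    rw [Fintype.sum_prod_type]
    apply Finset.sum_congr rfl
    intro T _
    rw [ih]
    apply Finset.sum_congr rfl
    intro s _
    congr 1
    ext v
    simp only [Fin.consEquiv, Equiv.coe_fn_mk, mem_union, mem_biUnion, mem_univ, true_and]
    constructor
    · rintro ((h | h) | ⟨i, hi⟩)
      · exact Or.inl h
      · exact Or.inr ⟨0, by simpa using h⟩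
      · exact Or.inr ⟨i.succ, by simpa using hi⟩
    · rintro (h | ⟨i, hi⟩)
      · exact Or.inl (Or.inl h)
      · induction i using Fin.cases with
        | zero => exact Or.inl (Or.inr (by simpa using hi))
        | succ i => exact Or.inr ⟨i, by simpa using hi⟩

open scoped Classical in
theorem tot_le (hT1 : S_T1) {V : Type} [Fintype V] (c : Finset V → ℝ) (hc : IsBool c)
    (D : Finset V → Prop) (hD : ∀ S T : Finset V, S ⊆ T → D T → D S) (n : ℕ) :
    (n + 1) * tot c D n ∅ ≤
      (2 * (Nat.log 2 (mon c D).card) ^ 2 + 1) * (mon c D).card ^ (n + 1) := by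
  set α := (mon c D : Type) with hα
  have h1 : ∑ t : Fin (n + 1) → α, (univ.filter (fun j : Fin (n + 1) =>
      Sing c D (univ.biUnion (fun i : Fin n => (t (j.succAbove i) : Finset V))) (t j))).card ≤
      (2 * (Nat.log 2 (mon c D).card) ^ 2 + 1) * (mon c D).card ^ (n + 1) := by
    calc _ ≤ ∑ _t : Fin (n + 1) → α, (2 * (Nat.log 2 (mon c D).card) ^ 2 + 1) :=
          Finset.sum_le_sum (fun t _ => t2 hT1 c hc D hD n (fun j => (t j : Finset V))
            (fun j => (t j).2))
      _ = _ := by
          rw [Finset.sum_const, card_univ, Fintype.card_fun, Fintype.card_fin, smul_eq_mul,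
            mul_comm]
          congr 2
          simp [hα]
  refine le_trans (le_of_eq ?_) h1
  simp_rw [Finset.card_filter]
  rw [Finset.sum_comm]
  have h2 : ∀ j : Fin (n + 1), (∑ t : Fin (n + 1) → α,
      if Sing c D (univ.biUnion (fun i : Fin n => (t (j.succAbove i) : Finset V))) (t j)
        then 1 else 0) = tot c D n ∅ := by
    intro j
    rw [tot_eq]
    rw [← Equiv.sum_comp (Fin.insertNthEquiv (fun _ : Fin (n + 1) => α) j)]
    rw [Fintype.sum_prod_type_right]
    apply Finset.sum_congr rfl
    intro s _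
    rw [empty_union]
    unfold sg
    rw [Finset.card_filter, ← Finset.sum_coe_sort (mon c D)]
    apply Finset.sum_congr rfl
    intro a _
    simp only [Fin.insertNthEquiv, Equiv.coe_fn_mk, Fin.insertNth_apply_same,
      Fin.insertNth_apply_succAbove]
  rw [Finset.sum_congr rfl (fun j _ => h2 j), Finset.sum_const, card_univ, Fintype.card_fin,
    smul_eq_mul]

open scoped Classical in
theorem cnt_le {V : Type} [Fintype V] (c : Finset V → ℝ) (D : Finset V → Prop) (n : ℕ) :
    ∀ C : Finset V, cnt c D n C ≤ (mon c D).card ^ n := by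
  induction n with
  | zero =>
    intro C
    rw [cnt]
    split_ifs <;> simp
  | succ n ih =>
    intro C
    rw [cnt]
    calc _ ≤ ∑ _T ∈ mon c D, (mon c D).card ^ n := Finset.sum_le_sum (fun T _ => ih _)
      _ = _ := by rw [Finset.sum_const, smul_eq_mul, pow_succ, mul_comm]

open scoped Classical in
theorem tot_ge {V : Type} [Fintype V] (c : Finset V → ℝ) (D : Finset V → Prop) (n : ℕ) :
    ∀ C : Finset V, (mon c D).card * (mon c D).card ^ n ≤
      2 * tot c D n C + (mon c D).card * cnt c D n C := by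
  induction n with
  | zero =>
    intro C
    rw [cnt, tot, pow_zero]
    split_ifs with h
    · omega
    · omega
  | succ n ih =>
    intro C
    rw [cnt, tot, Finset.mul_sum, Finset.mul_sum, ← Finset.sum_add_distrib]
    calc (mon c D).card * (mon c D).card ^ (n + 1)
        = ∑ _T ∈ mon c D, (mon c D).card * (mon c D).card ^ n := by
          rw [Finset.sum_const, smul_eq_mul]; ring
      _ ≤ _ := Finset.sum_le_sum (fun T _ => ih _)

open scoped Classical in
/-- At least three quarters of all `m`-tuples of monomials are good, `m + 1 = 8 κ`. -/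
theorem cnt_ge (hT1 : S_T1) {V : Type} [Fintype V] (c : Finset V → ℝ) (hc : IsBool c)
    (D : Finset V → Prop) (hD : ∀ S T : Finset V, S ⊆ T → D T → D S) (m κ : ℕ)
    (hm : m + 1 = 8 * κ) (hκ : 2 * (Nat.log 2 (mon c D).card) ^ 2 + 1 ≤ κ)
    (hpos : 0 < (mon c D).card) :
    3 * (mon c D).card ^ m ≤ 4 * cnt c D m ∅ := by
  set r := (mon c D).card with hr
  have h1 := tot_le hT1 c hc D hD m
  have h2 := tot_ge c D m ∅
  have h3 := cnt_le c D m ∅
  rw [← hr] at h1 h2 h3
  have h1 : (8 * κ) * tot c D m ∅ ≤ (2 * (Nat.log 2 r) ^ 2 + 1) * r ^ (m + 1) := by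
    rw [← hm]; exact h1
  have hκpos : 0 < κ := by omega
  have h4 : 8 * tot c D m ∅ ≤ r ^ (m + 1) := by
    have : κ * (8 * tot c D m ∅) ≤ κ * r ^ (m + 1) := by
      calc κ * (8 * tot c D m ∅) = 8 * κ * tot c D m ∅ := by ring
        _ ≤ (2 * (Nat.log 2 r) ^ 2 + 1) * r ^ (m + 1) := h1
        _ ≤ κ * r ^ (m + 1) := Nat.mul_le_mul_right _ hκ
    exact Nat.le_of_mul_le_mul_left this hκpos
  have h5 : r ^ (m + 1) = r * r ^ m := by rw [pow_succ, mul_comm]
  rw [h5] at h4
  have h6 : r * (3 * r ^ m) ≤ r * (4 * cnt c D m ∅) := by nlinarith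
  exact Nat.le_of_mul_le_mul_left h6 hpos

open scoped Classical in
/-- One step of the prefix game. -/
theorem game_step {V : Type} [Fintype V] (c : Finset V → ℝ) (D : Finset V → Prop) (m n : ℕ)
    (C : Finset V) (hpos : 0 < (mon c D).card)
    (hinv : (2 * m + (n + 1)) * (mon c D).card ^ (n + 1) ≤ 4 * m * cnt c D (n + 1) C) :
    (mon c D).card ≤ 4 * m * ((mon c D).filter (fun T =>
      (2 * m + n) * (mon c D).card ^ n ≤ 4 * m * cnt c D n (C ∪ T))).card := by
  set r := (mon c D).card with hr
  set 𝒯 := (mon c D).filter (fun T =>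
      (2 * m + n) * r ^ n ≤ 4 * m * cnt c D n (C ∪ T)) with h𝒯
  have h1 : 4 * m * cnt c D (n + 1) C ≤ ∑ T ∈ mon c D,
      ((if (2 * m + n) * r ^ n ≤ 4 * m * cnt c D n (C ∪ T) then 4 * m * r ^ n else 0) +
        (2 * m + n) * r ^ n) := by
    rw [cnt, Finset.mul_sum]
    apply Finset.sum_le_sum
    intro T _
    have h2 := cnt_le c D n (C ∪ T)
    rw [← hr] at h2
    split_ifs with h
    · have := Nat.mul_le_mul_left (4 * m) h2
      omega
    · omega
  rw [Finset.sum_add_distrib, ← Finset.sum_filter, Finset.sum_const, Finset.sum_const,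
    smul_eq_mul, smul_eq_mul] at h1
  rw [← h𝒯, ← hr] at h1
  have h3 := hinv.trans h1
  have h4 : r ^ (n + 1) = r * r ^ n := by rw [pow_succ, mul_comm]
  rw [h4] at h3
  have h5 : r * r ^ n ≤ (4 * m * 𝒯.card) * r ^ n := by nlinarith
  exact Nat.le_of_mul_le_mul_right h5 (by positivity)

end Pool.Agent.K1H94.AND
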