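import Pool.Agent.K1H94.AND.Avg

/-!
# Short decision lists of conjunctions for Boolean functions with few monomials
-/

set_option autoImplicit false

namespace Pool.Agent.K1H94.AND

open Finset

theorem DLV.mono {V : Type} [DecidableEq V] {L : List (Finset V × Bool)} {P Q : Finset V → Prop}
    {f : Finset V → Bool} (h : DLV L Q f) (hPQ : ∀ x, P x → Q x) : DLV L P f :=
  fun x hx => h x (hPQ x hx)

/-- branching on `T ⊆ x` -/
theorem dlv_branch {V : Type} [DecidableEq V] {L1 L2 : List (Finset V × Bool)}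
    {P : Finset V → Prop} {f : Finset V → Bool} (T : Finset V)
    (h1 : DLV L1 (fun x => P x ∧ T ⊆ x) f) (h2 : DLV L2 (fun x => P x ∧ ¬ T ⊆ x) f) :
    DLV (L1.map (fun p => (T ∪ p.1, p.2)) ++ L2) P f := by
  intro x hx
  rw [List.find?_append, List.find?_map]
  by_cases hT : T ⊆ x
  · have h3 := h1 x ⟨hx, hT⟩
    have h4 : ((fun p : Finset V × Bool => decide (p.1 ⊆ x)) ∘
        fun p : Finset V × Bool => (T ∪ p.1, p.2)) = fun p => decide (p.1 ⊆ x) := by
      funext p
      simp only [Function.comp]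
      congr 1
      rw [Finset.union_subset_iff]
      simp [hT]
    rw [h4]
    rcases hf : L1.find? (fun p => decide (p.1 ⊆ x)) with _ | p
    · rw [hf] at h3
      simp at h3
    · rw [hf] at h3 ⊢
      rw [Option.map_some, Option.some_or, Option.map_some]
      rw [Option.map_some] at h3
      exact h3
  · have h4 : ((fun p : Finset V × Bool => decide (p.1 ⊆ x)) ∘
        fun p : Finset V × Bool => (T ∪ p.1, p.2)) = fun p => false := by
      funext p
      simp only [Function.comp, decide_eq_false_iff_not]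
      intro h
      exact hT (Finset.union_subset_left h)
    rw [h4]
    have h5 : L1.find? (fun _ => false) = none := by simp
    rw [h5]
    simpa using h2 x ⟨hx, hT⟩

theorem dlv_or {V : Type} [DecidableEq V] {f : Finset V → Bool} (N1 N0 : ℕ)
    (𝒯 : Finset (Finset V)) : ∀ (P : Finset V → Prop),
    (∀ T ∈ 𝒯, ∃ L, DLV L (fun x => P x ∧ T ⊆ x) f ∧ L.length ≤ N1) →
    (∃ L, DLV L (fun x => P x ∧ ∀ T ∈ 𝒯, ¬ T ⊆ x) f ∧ L.length ≤ N0) →
    ∃ L, DLV L P f ∧ L.length ≤ 𝒯.card * N1 + N0 := by
  induction 𝒯 using Finset.induction_on with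
  | empty =>
    intro P _ h0
    obtain ⟨L, hL, hN⟩ := h0
    exact ⟨L, hL.mono (fun x hx => ⟨hx, by simp⟩), by simpa using hN⟩
  | insert T 𝒯 hT ih =>
    intro P h1 h0
    obtain ⟨L1, hL1, hN1⟩ := h1 T (mem_insert_self _ _)
    obtain ⟨L2, hL2, hN2⟩ := ih (fun x => P x ∧ ¬ T ⊆ x)
      (by
        intro T' hT'
        obtain ⟨L, hL, hN⟩ := h1 T' (mem_insert_of_mem hT')
        exact ⟨L, hL.mono (fun x hx => ⟨hx.1.1, hx.2⟩), hN⟩)
      (by
        obtain ⟨L, hL, hN⟩ := h0
        refine ⟨L, hL.mono (fun x hx => ⟨hx.1.1, ?_⟩), hN⟩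
        intro T' hT'
        rcases mem_insert.mp hT' with rfl | h
        · exact hx.1.2
        · exact hx.2 T' h)
    refine ⟨_, dlv_branch T hL1 hL2, ?_⟩
    rw [List.length_append, List.length_map, card_insert_of_notMem hT]
    have : (𝒯.card + 1) * N1 = 𝒯.card * N1 + N1 := by ring
    omega

open scoped Classical in
theorem const_of_mon_empty {V : Type} [Fintype V] (c : Finset V → ℝ) (D : Finset V → Prop)
    (hD : ∀ S T : Finset V, S ⊆ T → D T → D S) (h0 : (mon c D).card = 0) (x : Finset V)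
    (hx : D x) : val c x = val c ∅ := by
  rw [card_eq_zero] at h0
  unfold val
  rw [powerset_empty, sum_singleton]
  rw [Finset.sum_eq_single ∅]
  · intro S hS hne
    by_contra hc
    have : S ∈ mon c D := mem_mon.mpr ⟨hD S x (mem_powerset.mp hS) hx,
      Finset.nonempty_iff_ne_empty.mpr hne, hc⟩
    rw [h0] at this
    simp at this
  · intro h
    exact absurd (empty_mem_powerset x) h

open scoped Classical in
theorem dl_const {V : Type} [Fintype V] (c : Finset V → ℝ) (f : Finset V → Bool)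
    (hf : ∀ x, val c x = if f x then 1 else 0) (D : Finset V → Prop)
    (hD : ∀ S T : Finset V, S ⊆ T → D T → D S) (h0 : (mon c D).card = 0) :
    DLV [((∅ : Finset V), f ∅)] D f := by
  intro x hx
  have h1 := const_of_mon_empty c D hD h0 x hx
  rw [hf, hf] at h1
  have h2 : f x = f ∅ := by
    by_cases hx1 : f x = true <;> by_cases hx2 : f ∅ = true <;> simp_all
  simp [h2]

open scoped Classical in
theorem dl_main (hT1 : S_T1) {V : Type} [Fintype V] (m κ R : ℕ) (hm : m + 1 = 8 * κ)
    (hκ : 2 * (Nat.log 2 R) ^ 2 + 1 ≤ κ) (k : ℕ) :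
    ∀ (c : Finset V → ℝ) (f : Finset V → Bool), (∀ x, val c x = if f x then 1 else 0) →
    ∀ (D : Finset V → Prop), (∀ S T : Finset V, S ⊆ T → D T → D S) →
    (mon c D).card ≤ R → (mon c D).card * (4 * m - 1) ^ k < (4 * m) ^ k →
    ∃ L : List (Finset V × Bool), DLV L D f ∧ L.length ≤ (R + 1) ^ (m * k) := by
  have hκ1 : 1 ≤ κ := by omega
  have hm1 : 7 ≤ m := by omega
  induction k with
  | zero =>
    intro c f hf D hD _ hk
    rw [pow_zero, pow_zero, mul_one] at hk
    exact ⟨_, dl_const c f hf D hD (by omega), by simp⟩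
  | succ k ih =>
    intro c f hf D hD hR hk
    rcases Nat.eq_zero_or_pos (mon c D).card with h0 | hpos
    · exact ⟨_, dl_const c f hf D hD h0, by simpa using Nat.one_le_pow _ _ (by omega)⟩
    have hbool : IsBool c := by
      intro x
      rw [hf]
      split_ifs
      · exact Or.inr rfl
      · exact Or.inl rfl
    set r := (mon c D).card with hr
    -- reduction of the number of monomials suffices
    have hred : ∀ r' : ℕ, r' * (4 * m) ≤ r * (4 * m - 1) → r' * (4 * m - 1) ^ k < (4 * m) ^ k := by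
      intro r' hr'
      have h1 : (r' * (4 * m - 1) ^ k) * (4 * m) < (4 * m) ^ k * (4 * m) := by
        calc (r' * (4 * m - 1) ^ k) * (4 * m) = (r' * (4 * m)) * (4 * m - 1) ^ k := by ring
          _ ≤ (r * (4 * m - 1)) * (4 * m - 1) ^ k := Nat.mul_le_mul_right _ hr'
          _ = r * (4 * m - 1) ^ (k + 1) := by ring
          _ < (4 * m) ^ (k + 1) := hk
          _ = (4 * m) ^ k * (4 * m) := by ring
      exact Nat.lt_of_mul_lt_mul_right h1
    have inner : ∀ n : ℕ, n ≤ m → ∀ C : Finset V,
        (2 * m + n) * r ^ n ≤ 4 * m * cnt c D n C →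
        ∃ L : List (Finset V × Bool), DLV L (fun x => D x ∧ C ⊆ x) f ∧
          L.length ≤ (R + 1) ^ n * (R + 1) ^ (m * k) := by
      intro n
      induction n with
      | zero =>
        intro _ C hinv
        rw [cnt] at hinv
        have hredC : 2 * sg c D C ≤ (mon c D).card := by
          by_contra hcon
          rw [if_neg hcon] at hinv
          simp at hinv
          omega
        have hsh := card_shift c D hD C
        have hshR : (mon (shift c C) (fun x => D (C ∪ x))).card * 4 ≤ 3 * r := by omega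
        obtain ⟨L, hL, hlen⟩ := ih (shift c C) (fun x => f (C ∪ x))
          (fun x => by rw [val_shift, hf]) (fun x => D (C ∪ x))
          (fun S T hST hT => hD _ _ (union_subset_union_right hST) hT)
          (by omega) (hred _ (by
            have : r * (4 * m - 1) = 4 * (r * m) - r := by
              rw [Nat.mul_sub, mul_one]
              congr 1
              ring
            rw [this]
            have h8 : (mon (shift c C) (fun x => D (C ∪ x))).card * (4 * m) ≤ 3 * (r * m) := by
              calc (mon (shift c C) (fun x => D (C ∪ x))).card * (4 * m)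
                  = ((mon (shift c C) (fun x => D (C ∪ x))).card * 4) * m := by ring
                _ ≤ (3 * r) * m := Nat.mul_le_mul_right _ hshR
                _ = 3 * (r * m) := by ring
            have h9 : r ≤ r * m := Nat.le_mul_of_pos_right r (by omega)
            omega))
        refine ⟨L, ?_, by simpa using hlen⟩
        intro x hx
        have hCx : C ∪ x = x := union_eq_right.mpr hx.2
        have := hL x (by show D (C ∪ x); rw [hCx]; exact hx.1)
        simp only [hCx] at this
        exact this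
      | succ n ihn =>
        intro hn C hinv
        have hstep := game_step c D m n C hpos (by rw [← hr]; exact hinv)
        rw [← hr] at hstep
        set 𝒯 := (mon c D).filter (fun T =>
          (2 * m + n) * r ^ n ≤ 4 * m * cnt c D n (C ∪ T)) with h𝒯
        have h𝒯r : 𝒯.card ≤ r := card_le_card (filter_subset _ _)
        have hA : ∀ T ∈ 𝒯, ∃ L, DLV L (fun x => (D x ∧ C ⊆ x) ∧ T ⊆ x) f ∧
            L.length ≤ (R + 1) ^ n * (R + 1) ^ (m * k) := by
          intro T hT
          obtain ⟨L, hL, hlen⟩ := ihn (by omega) (C ∪ T) (mem_filter.mp hT).2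
          exact ⟨L, hL.mono (fun x hx => ⟨hx.1.1, union_subset hx.1.2 hx.2⟩), hlen⟩
        have hB : ∃ L, DLV L (fun x => (D x ∧ C ⊆ x) ∧ ∀ T ∈ 𝒯, ¬ T ⊆ x) f ∧
            L.length ≤ (R + 1) ^ (m * k) := by
          have hsubm : mon c (fun x => D x ∧ ∀ T ∈ 𝒯, ¬ T ⊆ x) ⊆ mon c D \ 𝒯 := by
            intro S hS
            rw [mem_mon] at hS
            rw [mem_sdiff, mem_mon]
            exact ⟨⟨hS.1.1, hS.2⟩, fun hS' => hS.1.2 S hS' le_rfl⟩
          have hcard : (mon c (fun x => D x ∧ ∀ T ∈ 𝒯, ¬ T ⊆ x)).card ≤ r - 𝒯.card := by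
            refine (card_le_card hsubm).trans ?_
            rw [card_sdiff_of_subset (filter_subset _ _)]
          obtain ⟨L, hL, hlen⟩ := ih c f hf (fun x => D x ∧ ∀ T ∈ 𝒯, ¬ T ⊆ x)
            (fun S T hST hT => ⟨hD S T hST hT.1, fun T' hT' h => hT.2 T' hT' (h.trans hST)⟩)
            (by omega) (hred _ (by
              calc (mon c (fun x => D x ∧ ∀ T ∈ 𝒯, ¬ T ⊆ x)).card * (4 * m)
                  ≤ (r - 𝒯.card) * (4 * m) := Nat.mul_le_mul_right _ hcard
                _ = r * (4 * m) - 4 * m * 𝒯.card := by rw [Nat.sub_mul]; ring_nf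
                _ ≤ r * (4 * m) - r := by omega
                _ = r * (4 * m - 1) := by rw [Nat.mul_sub, mul_one]))
          exact ⟨L, hL.mono (fun x hx => ⟨hx.1.1, hx.2⟩), hlen⟩
        obtain ⟨L, hL, hlen⟩ := dlv_or _ _ 𝒯 (fun x => D x ∧ C ⊆ x) hA hB
        refine ⟨L, hL, hlen.trans ?_⟩
        have h1 : 1 ≤ (R + 1) ^ n := Nat.one_le_pow _ _ (by omega)
        calc 𝒯.card * ((R + 1) ^ n * (R + 1) ^ (m * k)) + (R + 1) ^ (m * k)
            ≤ R * ((R + 1) ^ n * (R + 1) ^ (m * k)) + (R + 1) ^ n * (R + 1) ^ (m * k) := by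
              apply Nat.add_le_add
              · exact Nat.mul_le_mul_right _ (h𝒯r.trans hR)
              · exact Nat.le_mul_of_pos_left _ (by omega)
          _ = (R + 1) ^ (n + 1) * (R + 1) ^ (m * k) := by ring
    have h3 := cnt_ge hT1 c hbool D hD m κ hm
      (by
        have : Nat.log 2 (mon c D).card ≤ Nat.log 2 R := Nat.log_mono_right hR
        have h5 := Nat.pow_le_pow_left this 2
        omega) hpos
    obtain ⟨L, hL, hlen⟩ := inner m le_rfl ∅ (by
      rw [← hr] at h3
      have h6 : m * (3 * r ^ m) ≤ m * (4 * cnt c D m ∅) := Nat.mul_le_mul_left _ h3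
      calc (2 * m + m) * r ^ m = m * (3 * r ^ m) := by ring
        _ ≤ m * (4 * cnt c D m ∅) := h6
        _ = 4 * m * cnt c D m ∅ := by ring)
    refine ⟨L, hL.mono (fun x hx => ⟨hx, empty_subset _⟩), hlen.trans (le_of_eq ?_)⟩
    rw [← pow_add]
    congr 1
    ring

/-- `2 (n-1)^n ≤ n^n` -/
theorem two_mul_pred_pow_le (n : ℕ) (hn : 1 ≤ n) : 2 * (n - 1) ^ n ≤ n ^ n := by
  obtain ⟨p, rfl⟩ : ∃ p, n = p + 1 := ⟨n - 1, by omega⟩
  rw [Nat.add_sub_cancel]
  have h1 : p ^ (p + 1) + (p + 1) * p ^ p ≤ (p + 1) ^ (p + 1) := by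
    rcases Nat.eq_zero_or_pos p with rfl | hp
    · simp
    have h2 : ((p : ℚ) ^ (p + 1) + (p + 1) * (p : ℚ) ^ p) ≤ ((p : ℚ) + 1) ^ (p + 1) := by
      have hpq : (0 : ℚ) < p := by exact_mod_cast hp
      have h3 := one_add_mul_le_pow (a := (1 : ℚ) / p) (by
        have : (0 : ℚ) ≤ 1 / p := by positivity
        linarith) (p + 1)
      have h4 := mul_le_mul_of_nonneg_left h3 (by positivity : (0 : ℚ) ≤ (p : ℚ) ^ (p + 1))
      have h5 : (p : ℚ) ^ (p + 1) * (1 + 1 / p) ^ (p + 1) = ((p : ℚ) + 1) ^ (p + 1) := by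
        rw [← mul_pow]
        congr 1
        field_simp
      rw [h5] at h4
      refine le_trans (le_of_eq ?_) h4
      push_cast
      rw [pow_succ]
      field_simp
    exact_mod_cast h2
  have h6 : p ^ (p + 1) ≤ (p + 1) * p ^ p := by
    rw [pow_succ, mul_comm]
    exact Nat.mul_le_mul_right _ (by omega)
  omega

theorem DL (hT1 : S_T1) : S_DL := by
  intro V _ c f hf R hR
  classical
  set l := Nat.log 2 R with hl
  set κ := 2 * l ^ 2 + 1 with hκ
  set m := 8 * κ - 1 with hm
  have hcard : (mon c (fun _ => True)).card ≤ R := by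
    refine le_trans (le_of_eq ?_) hR
    unfold mon
    congr 1
    ext S
    simp
  have hlt : (mon c (fun _ => True)).card * (4 * m - 1) ^ (4 * m * (l + 1)) <
      (4 * m) ^ (4 * m * (l + 1)) := by
    have hR2 : R < 2 ^ (l + 1) := Nat.lt_pow_succ_log_self (by norm_num) R
    have h1 := two_mul_pred_pow_le (4 * m) (by omega)
    have h2 := Nat.pow_le_pow_left h1 (l + 1)
    rw [mul_pow, ← pow_mul, ← pow_mul] at h2
    refine lt_of_lt_of_le ?_ h2
    have h3 : 0 < (4 * m - 1) ^ (4 * m * (l + 1)) := by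
      apply Nat.pow_pos
      omega
    exact Nat.mul_lt_mul_of_pos_right (by omega) h3
  obtain ⟨L, hL, hlen⟩ := dl_main hT1 m κ R (by omega) le_rfl (4 * m * (l + 1)) c f hf
    (fun _ => True) (fun _ _ _ _ => trivial) hcard hlt
  refine ⟨L, ?_, hlen.trans ?_⟩
  · exact hL
  · apply Nat.pow_le_pow_right (by omega)
    have h4 : m ≤ 16 * (l + 1) ^ 2 := by
      have : 16 * (l + 1) ^ 2 = 16 * l ^ 2 + 32 * l + 16 := by ring
      omega
    calc m * (4 * m * (l + 1)) = 4 * (m * m) * (l + 1) := by ring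
      _ ≤ 4 * ((16 * (l + 1) ^ 2) * (16 * (l + 1) ^ 2)) * (l + 1) :=
          Nat.mul_le_mul_right _ (Nat.mul_le_mul_left _ (Nat.mul_le_mul h4 h4))
      _ = 1024 * (l + 1) ^ 5 := by ring

end Pool.Agent.K1H94.AND
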