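import Pool.Agent.K1H94.AND.Semilattice
import Pool.Agent.H287R3.LR.Graph

/-!
# Graphs attached to meet matrices
-/

set_option autoImplicit false

namespace Pool.Agent.K1H94.AND

open Finset Pool.Agent.H630R2.LR

/-- The graph of the `v`-entries of a `0/1` matrix `F`: its vertices are the entries with value `v`;
two entries `(x, y)`, `(x', y')` are adjacent if and only if one of the entries `(x, y')`, `(x', y)`
has not the value `v`.  A set of vertices is independent iff the rectangle it spans is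
monochromatic. -/
def EntryGraph {X Y : Type} (F : X → Y → Bool) (v : Bool) :
    SimpleGraph {p : X × Y // F p.1 p.2 = v} where
  Adj p q := F p.1.1 q.1.2 ≠ v ∨ F q.1.1 p.1.2 ≠ v
  symm := ⟨fun _ _ h => h.symm⟩
  loopless := ⟨fun p h => by rcases h with h | h <;> exact h p.2⟩

theorem entry_colorable {X Y : Type} {F : X → Y → Bool} {c : ℕ} (h : Proto F c) (v : Bool) :
    (EntryGraph F v).Colorable (2 ^ c) := by
  obtain ⟨owner, a, b, out, hout⟩ := h
  have hcol : (EntryGraph F v).Coloring (List.Vector Bool c) := by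
    refine SimpleGraph.Coloring.mk (fun p =>
      ⟨Pool.Agent.H287R3.LR.tr owner a b p.1.1 p.1.2 c,
        Pool.Agent.H287R3.LR.tr_length owner a b p.1.1 p.1.2 c⟩) ?_
    intro p q hpq heq
    have h1 : Pool.Agent.H287R3.LR.tr owner a b p.1.1 p.1.2 c =
        Pool.Agent.H287R3.LR.tr owner a b q.1.1 q.1.2 c := congrArg Subtype.val heq
    have h2 := Pool.Agent.H287R3.LR.tr_rect owner a b p.1.1 q.1.1 p.1.2 q.1.2 c h1
    have h3 := Pool.Agent.H287R3.LR.tr_rect owner a b q.1.1 p.1.1 q.1.2 p.1.2 c h1.symm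
    have e1 : F p.1.1 q.1.2 = v := by
      have h4 : F p.1.1 q.1.2 = F p.1.1 p.1.2 := by
        rw [← hout p.1.1 q.1.2, ← hout p.1.1 p.1.2]
        exact congrArg out h2
      exact h4.trans p.2
    have e2 : F q.1.1 p.1.2 = v := by
      have h4 : F q.1.1 p.1.2 = F p.1.1 p.1.2 := by
        rw [← hout q.1.1 p.1.2, ← hout p.1.1 p.1.2]
        exact congrArg out (h3.trans h1.symm)
      exact h4.trans p.2
    rcases hpq with h | h
    · exact h e1
    · exact h e2
  have := hcol.colorable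
  rw [card_vector, Fintype.card_bool] at this
  exact this

theorem logb_toNat_le {V : Type} (G : SimpleGraph V) {c : ℕ} (h : G.Colorable (2 ^ c)) :
    Real.logb 2 (G.chromaticNumber.toNat : ℝ) ≤ c := by
  have h2 : G.chromaticNumber ≤ ((2 ^ c : ℕ) : ℕ∞) := h.chromaticNumber_le
  have h3 : G.chromaticNumber.toNat ≤ 2 ^ c := by
    have := ENat.toNat_le_toNat h2 (ENat.natCast_ne_top _)
    rwa [ENat.toNat_coe] at this
  rcases Nat.eq_zero_or_pos G.chromaticNumber.toNat with h0 | h0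
  · rw [h0]
    simp
  · rw [Real.logb_le_iff_le_rpow (by norm_num) (by exact_mod_cast h0), Real.rpow_natCast]
    exact_mod_cast h3

/-- comparison of the natural and the real form of the bound -/
theorem bound_le (ρ r : ℕ) (h : ρ ≤ r) :
    ((4100 * (Nat.log 2 (ρ + 1) + 1) ^ 7 : ℕ) : ℝ) ≤
      4100 * (Real.logb 2 ((r : ℝ) + 1) + 1) ^ 7 := by
  have h1 : (Nat.log 2 (ρ + 1) : ℝ) ≤ Real.logb 2 ((r : ℝ) + 1) := by
    have h2 := log_le (ρ + 1)
    refine h2.trans ?_
    push_cast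
    have h3 : (ρ : ℝ) ≤ r := by exact_mod_cast h
    exact Real.logb_le_logb_of_le (by norm_num) (by positivity) (by linarith)
  push_cast
  gcongr

theorem meet_protocol {S : Type} [Fintype S] [SemilatticeInf S] (f : S → Bool) :
    ∃ c : ℕ, Proto (fun x y : S => f (x ⊓ y)) c ∧
      (c : ℝ) ≤ 4100 * (Real.logb 2 (((comm (fun x y : S => f (x ⊓ y))).rank : ℝ) + 1) + 1) ^ 7 :=
  ⟨_, meet_proto f, bound_le _ _ le_rfl⟩

theorem not_const_rank {S : Type} [Fintype S] [SemilatticeInf S] [OrderBot S] (f : S → Bool)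
    (G : SimpleGraph {p : S × S // f (p.1 ⊓ p.2) = f ⊥})
    (hG : G = EntryGraph (fun x y : S => f (x ⊓ y)) (f ⊥)) [DecidableRel G.Adj] :
    (comm (fun x y : S => xor (f (x ⊓ y)) (f ⊥))).rank ≤ (G.adjMatrix ℝ).rank := by
  have e : comm (fun x y : S => xor (f (x ⊓ y)) (f ⊥)) =
      (G.adjMatrix ℝ).submatrix (fun x : S => ⟨(x, ⊥), by simp⟩)
        (fun y : S => ⟨(⊥, y), by simp⟩) := by
    ext x y
    rw [Matrix.submatrix_apply, SimpleGraph.adjMatrix_apply]
    have h3 : G.Adj ⟨(x, ⊥), by simp⟩ ⟨(⊥, y), by simp⟩ ↔ xor (f (x ⊓ y)) (f ⊥) = true := by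
      rw [hG]
      show (f (x ⊓ y) ≠ f ⊥ ∨ f (⊥ ⊓ ⊥) ≠ f ⊥) ↔ _
      rw [inf_idem]
      cases f (x ⊓ y) <;> cases f ⊥ <;> simp
    show (if xor (f (x ⊓ y)) (f ⊥) = true then (1 : ℝ) else 0) = _
    simp only [h3]
  rw [e]
  exact Matrix.rank_submatrix_le _ _ _

theorem entry_xor {X Y : Type} (F : X → Y → Bool) (b v : Bool) (k : ℕ)
    (h : (EntryGraph (fun x y => xor (F x y) b) (xor v b)).Colorable k) :
    (EntryGraph F v).Colorable k := by
  obtain ⟨C⟩ := h
  refine ⟨SimpleGraph.Coloring.mk (fun p => C ⟨p.1, by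
    show xor (F p.1.1 p.1.2) b = xor v b
    rw [p.2]⟩) ?_⟩
  intro p q hpq
  apply C.valid
  show xor (F p.1.1 q.1.2) b ≠ xor v b ∨ xor (F q.1.1 p.1.2) b ≠ xor v b
  rcases hpq with h | h
  · left
    intro h'
    exact h (by simpa using h')
  · right
    intro h'
    exact h (by simpa using h')

theorem q1_form (r : ℕ) (hr : 1 < r) :
    4100 * (Real.logb 2 ((r : ℝ) + 1) + 1) ^ 7 ≤ 9000000 * (Real.logb 2 r) ^ 7 := by
  have hr2 : (2 : ℝ) ≤ r := by exact_mod_cast hr
  have h1 : 1 ≤ Real.logb 2 (r : ℝ) := by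
    rw [Real.le_logb_iff_rpow_le (by norm_num) (by linarith)]
    simpa using hr2
  have h2 : Real.logb 2 ((r : ℝ) + 1) ≤ Real.logb 2 r + 1 := by
    have h3 : Real.logb 2 (r : ℝ) + 1 = Real.logb 2 (r * 2) := by
      rw [Real.logb_mul (by linarith) (by norm_num), Real.logb_self_eq_one (by norm_num)]
    rw [h3]
    exact Real.logb_le_logb_of_le (by norm_num) (by linarith) (by linarith)
  have h4 : 0 ≤ Real.logb 2 ((r : ℝ) + 1) := Real.logb_nonneg (by norm_num) (by linarith)
  calc 4100 * (Real.logb 2 ((r : ℝ) + 1) + 1) ^ 7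
      ≤ 4100 * (3 * Real.logb 2 (r : ℝ)) ^ 7 := by
        gcongr
        linarith
    _ = 8966700 * (Real.logb 2 r) ^ 7 := by ring
    _ ≤ 9000000 * (Real.logb 2 r) ^ 7 := by
        gcongr
        norm_num

theorem meet_entry {S : Type} [Fintype S] [SemilatticeInf S] [OrderBot S] (f : S → Bool)
    [DecidableRel (EntryGraph (fun x y : S => f (x ⊓ y)) (f ⊥)).Adj] (v : Bool)
    (hr : 1 < ((EntryGraph (fun x y : S => f (x ⊓ y)) (f ⊥)).adjMatrix ℝ).rank) :
    Real.logb 2 ((EntryGraph (fun x y : S => f (x ⊓ y)) v).chromaticNumber.toNat : ℝ) ≤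
      9000000 * (Real.logb 2
        ((EntryGraph (fun x y : S => f (x ⊓ y)) (f ⊥)).adjMatrix ℝ).rank) ^ 7 := by
  have hrank := not_const_rank f _ rfl
  have hp := meet_proto (fun x : S => xor (f x) (f ⊥))
  have h1 := entry_colorable hp (xor v (f ⊥))
  have h2 := entry_xor (fun x y : S => f (x ⊓ y)) (f ⊥) v _ h1
  refine (logb_toNat_le _ h2).trans ?_
  exact (bound_le _ _ hrank).trans (q1_form _ hr)

theorem meet_graph {S : Type} [Fintype S] [SemilatticeInf S] (f : S → Bool) {W : Type}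
    (G : SimpleGraph W) (φ ψ : W → S) (hG : ∀ u v, G.Adj u v ↔ f (φ u ⊓ ψ v) = true) :
    Real.logb 2 (G.chromaticNumber.toNat : ℝ) ≤
      4100 * (Real.logb 2 (((comm (fun x y : S => f (x ⊓ y))).rank : ℝ) + 1) + 1) ^ 7 := by
  classical
  have h1 := (meet_proto f).comap φ ψ
  have h2 : (fun u v : W => decide (G.Adj u v)) = fun u v => f (φ u ⊓ ψ v) := by
    funext u v
    simp only [hG]
    simp
  rw [← h2] at h1
  exact (logb_toNat_le _ (Pool.Agent.H287R3.LR.colorable_of_proto G h1)).trans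
    (bound_le _ _ le_rfl)

end Pool.Agent.K1H94.AND
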