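import Pool.Agent.K1H94.AND.Stm

/-! # The log-rank conjecture for AND-functions: the protocol (helper92 for helper94)

A decision list of rectangles and small ranks give a cheap protocol (elimination of half of one of
the two ranks by every rectangle). -/

set_option autoImplicit false
set_option linter.unusedSectionVars false

namespace Pool.Agent.K1H94.AND

open Finset Pool.Agent.H630R2.LR

section

variable {X Y : Type} [Fintype X] [Fintype Y]

open Classical in
/-- the masked matrix -/
noncomputable def mk (F : X → Y → Bool) (A : X → Prop) (B : Y → Prop) : Matrix X Y ℝ :=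
  Matrix.of (fun (x : X) (y : Y) => if A x ∧ B y ∧ F x y = true then (1 : ℝ) else 0)

open Classical in
/-- the diagonal projection -/
noncomputable def dg {Z : Type} (A : Z → Prop) : Matrix Z Z ℝ :=
  Matrix.diagonal (fun x => if A x then (1 : ℝ) else 0)

theorem rk_eq (F : X → Y → Bool) (A : X → Prop) (B : Y → Prop) : rk F A B = (mk F A B).rank := rfl

theorem dg_mul (F : X → Y → Bool) (A A1 : X → Prop) (B : Y → Prop) (h : ∀ x, A1 x → A x) :
    dg A1 * mk F A B = mk F A1 B := by
  classical
  ext x y
  rw [dg, Matrix.diagonal_mul]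
  simp only [mk, Matrix.of_apply]
  by_cases h1 : A1 x
  · simp [h1, h x h1]
  · simp [h1]

theorem mul_dg (F : X → Y → Bool) (A : X → Prop) (B B1 : Y → Prop) (h : ∀ y, B1 y → B y) :
    mk F A B * dg B1 = mk F A B1 := by
  classical
  ext x y
  rw [dg, Matrix.mul_diagonal]
  simp only [mk, Matrix.of_apply]
  by_cases h1 : B1 y
  · simp [h1, h y h1]
  · simp [h1]

theorem rk_mono (F : X → Y → Bool) {A A1 : X → Prop} {B B1 : Y → Prop} (hA : ∀ x, A1 x → A x)
    (hB : ∀ y, B1 y → B y) : rk F A1 B1 ≤ rk F A B := by
  rw [rk_eq, rk_eq, ← dg_mul F A A1 B1 hA, ← mul_dg F A B B1 hB]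
  exact (Matrix.rank_mul_le_right _ _).trans (Matrix.rank_mul_le_left _ _)

/-- Frobenius' rank inequality in the case of the product zero. -/
theorem frob (E : Matrix X X ℝ) (M : Matrix X Y ℝ) (D : Matrix Y Y ℝ) (h : E * M * D = 0) :
    (E * M).rank + (M * D).rank ≤ M.rank := by
  classical
  let V : Submodule ℝ (X → ℝ) := LinearMap.range M.mulVecLin
  let φ : V →ₗ[ℝ] (X → ℝ) := E.mulVecLin.domRestrict V
  have h1 := LinearMap.finrank_range_add_finrank_ker φ
  have h2 : LinearMap.range φ = LinearMap.range (E * M).mulVecLin := by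
    rw [Matrix.mulVecLin_mul, LinearMap.range_comp]
    ext z
    simp only [LinearMap.mem_range, Submodule.mem_map, φ, V]
    constructor
    · rintro ⟨⟨v, hv⟩, rfl⟩
      exact ⟨v, hv, rfl⟩
    · rintro ⟨v, hv, rfl⟩
      exact ⟨⟨v, hv⟩, rfl⟩
  have h3 : Module.finrank ℝ (LinearMap.range (M * D).mulVecLin) ≤
      Module.finrank ℝ (LinearMap.ker φ) := by
    have h4 : (LinearMap.range (M * D).mulVecLin) ≤ (LinearMap.ker φ).map V.subtype := by
      rintro z ⟨v, rfl⟩
      have h5 : (M * D).mulVecLin v ∈ V := by
        rw [Matrix.mulVecLin_mul]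
        exact ⟨D.mulVecLin v, rfl⟩
      refine ⟨⟨_, h5⟩, ?_, rfl⟩
      rw [SetLike.mem_coe, LinearMap.mem_ker]
      show E.mulVecLin ((M * D).mulVecLin v) = 0
      have h6 : E.mulVecLin ((M * D).mulVecLin v) = (E * (M * D)).mulVecLin v := by
        rw [Matrix.mulVecLin_mul E (M * D)]
        rfl
      rw [h6, ← Matrix.mul_assoc, h]
      simp
    refine (Submodule.finrank_mono h4).trans ?_
    exact (Submodule.finrank_map_subtype_eq V (LinearMap.ker φ)).le
  have h7 : Module.finrank ℝ V = M.rank := rfl
  have h8 : (E * M).rank = Module.finrank ℝ (LinearMap.range φ) := by rw [h2]; rfl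
  have h9 : (M * D).rank = Module.finrank ℝ (LinearMap.range (M * D).mulVecLin) := rfl
  rw [h8, h9, ← h7]
  omega

theorem rk_block (F : X → Y → Bool) {A A1 : X → Prop} {B B1 : Y → Prop} (hA : ∀ x, A1 x → A x)
    (hB : ∀ y, B1 y → B y) (h0 : ∀ x y, A1 x → B1 y → F x y = false) :
    rk F A1 B + rk F A B1 ≤ rk F A B := by
  classical
  rw [rk_eq, rk_eq, rk_eq, ← dg_mul F A A1 B hA, ← mul_dg F A B B1 hB]
  refine frob _ _ _ ?_
  rw [dg_mul F A A1 B hA, mul_dg F A1 B B1 hB]
  ext x y
  simp only [mk, Matrix.of_apply, Matrix.zero_apply]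
  split_ifs with h
  · rw [h0 x y h.1 h.2.1] at h
    simp at h
  · rfl

theorem rk_zero (F : X → Y → Bool) {A : X → Prop} {B : Y → Prop} (h : rk F A B = 0) (x : X) (y : Y)
    (hx : A x) (hy : B y) : F x y = false := by
  classical
  rw [rk_eq] at h
  have h1 : (mk F A B).mulVecLin = 0 := by
    rw [← LinearMap.range_eq_bot, ← Submodule.finrank_eq_zero (R := ℝ)]
    exact h
  have h2 : (mk F A B).mulVec (Pi.single y 1) x = 0 := by
    have := congrArg (fun φ => φ (Pi.single y 1) x) h1
    simpa using this
  rw [Matrix.mulVec_single_one] at h2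
  have h3 : (mk F A B) x y = 0 := h2
  by_contra hF
  have hF' : F x y = true := by simpa using hF
  simp [mk, hx, hy, hF'] at h3

theorem rk_empty (F : X → Y → Bool) {A : X → Prop} {B : Y → Prop}
    (h : ∀ x y, A x → B y → False) : rk F A B = 0 := by
  classical
  rw [rk_eq]
  have h1 : mk F A B = 0 := by
    ext x y
    simp only [mk, Matrix.of_apply, Matrix.zero_apply]
    split_ifs with h'
    · exact (h x y h'.1 h'.2.1).elim
    · rfl
  rw [h1, Matrix.rank_zero]

/-- the potential -/
noncomputable def pt (F : X → Y → Bool) (A : X → Prop) (B : Y → Prop) : ℕ :=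
  rk F A B * rk (fun x y => !F x y) A B

theorem pt_mono (F : X → Y → Bool) {A A1 : X → Prop} {B B1 : Y → Prop} (hA : ∀ x, A1 x → A x)
    (hB : ∀ y, B1 y → B y) : pt F A1 B1 ≤ pt F A B :=
  Nat.mul_le_mul (rk_mono F hA hB) (rk_mono _ hA hB)

theorem pt_half (F : X → Y → Bool) {A A1 : X → Prop} {B B1 : Y → Prop} (hA : ∀ x, A1 x → A x)
    (hB : ∀ y, B1 y → B y) (v : Bool) (h0 : ∀ x y, A1 x → B1 y → F x y = v) :
    2 * pt F A1 B ≤ pt F A B ∨ 2 * pt F A B1 ≤ pt F A B := by
  have hid : ∀ x : X, A x → A x := fun _ h => h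
  have hid' : ∀ y : Y, B y → B y := fun _ h => h
  have a1 := rk_mono F hA hid'
  have a2 := rk_mono F hid hB
  have b1 := rk_mono (fun x y => !F x y) hA hid'
  have b2 := rk_mono (fun x y => !F x y) hid hB
  unfold pt
  cases v with
  | false =>
    have h := rk_block F hA hB h0
    rcases Nat.le_total (rk F A1 B) (rk F A B1) with h1 | h1
    · left
      calc 2 * (rk F A1 B * rk (fun x y => !F x y) A1 B)
          = (2 * rk F A1 B) * rk (fun x y => !F x y) A1 B := by ring
        _ ≤ rk F A B * rk (fun x y => !F x y) A B := Nat.mul_le_mul (by omega) b1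
    · right
      calc 2 * (rk F A B1 * rk (fun x y => !F x y) A B1)
          = (2 * rk F A B1) * rk (fun x y => !F x y) A B1 := by ring
        _ ≤ rk F A B * rk (fun x y => !F x y) A B := Nat.mul_le_mul (by omega) b2
  | true =>
    have h := rk_block (fun x y => !F x y) hA hB (fun x y hx hy => by simp [h0 x y hx hy])
    rcases Nat.le_total (rk (fun x y => !F x y) A1 B) (rk (fun x y => !F x y) A B1) with h1 | h1
    · left
      calc 2 * (rk F A1 B * rk (fun x y => !F x y) A1 B)
          = rk F A1 B * (2 * rk (fun x y => !F x y) A1 B) := by ring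
        _ ≤ rk F A B * rk (fun x y => !F x y) A B := Nat.mul_le_mul a1 (by omega)
    · right
      calc 2 * (rk F A B1 * rk (fun x y => !F x y) A B1)
          = rk F A B1 * (2 * rk (fun x y => !F x y) A B1) := by ring
        _ ≤ rk F A B * rk (fun x y => !F x y) A B := Nat.mul_le_mul a2 (by omega)

/-- the list computes `F` on `A × B` -/
def Vd (L : List ((X → Bool) × (Y → Bool) × Bool)) (A : X → Prop) (B : Y → Prop)
    (F : X → Y → Bool) : Prop :=
  ∀ x y, A x → B y → (L.find? (fun R => R.1 x && R.2.1 y)).map (fun R => R.2.2) = some (F x y)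

theorem elim (F : X → Y → Bool) (k : ℕ) : ∀ (L : List ((X → Bool) × (Y → Bool) × Bool))
    (A : X → Prop) (B : Y → Prop), Vd L A B F → pt F A B < 2 ^ (k + 1) →
    ∃ (gA : X → ℕ) (gB : Y → ℕ), (∀ x, gA x ≤ L.length) ∧ (∀ y, gB y ≤ L.length) ∧
      ∀ i j, pt F (fun x => A x ∧ gA x = i) (fun y => B y ∧ gB y = j) < 2 ^ k := by
  intro L
  induction L with
  | nil =>
    intro A B hV _
    refine ⟨fun _ => 0, fun _ => 0, fun _ => le_rfl, fun _ => le_rfl, fun i j => ?_⟩
    have h0 : rk F (fun x => A x ∧ 0 = i) (fun y => B y ∧ 0 = j) = 0 := by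
      refine rk_empty F fun x y hx hy => ?_
      have := hV x y hx.1 hy.1
      simp at this
    unfold pt
    rw [h0, Nat.zero_mul]
    positivity
  | cons R L ih =>
    intro A B hV hp
    have hc : ∀ x y, (A x ∧ R.1 x = true) → (B y ∧ R.2.1 y = true) → F x y = R.2.2 := by
      intro x y hx hy
      have h := hV x y hx.1 hy.1
      rw [List.find?_cons_of_pos (by simp [hx.2, hy.2])] at h
      simpa using h.symm
    have hpow : 2 ^ (k + 1) = 2 * 2 ^ k := by ring
    rcases pt_half F (A := A) (A1 := fun x => A x ∧ R.1 x = true) (B := B)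
      (B1 := fun y => B y ∧ R.2.1 y = true) (fun x h => h.1) (fun y h => h.1) R.2.2 hc with hh | hh
    · have hV' : Vd L (fun x => A x ∧ R.1 x = false) B F := by
        intro x y hx hy
        have h := hV x y hx.1 hy
        rwa [List.find?_cons_of_neg (by simp [hx.2])] at h
      have hp' : pt F (fun x => A x ∧ R.1 x = false) B < 2 ^ (k + 1) :=
        lt_of_le_of_lt (pt_mono F (fun x h => h.1) (fun y h => h)) hp
      obtain ⟨gA, gB, h1, h2, h3⟩ := ih _ _ hV' hp'
      refine ⟨fun x => if R.1 x = true then 0 else gA x + 1, gB, fun x => ?_, fun y => ?_, fun i j => ?_⟩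
      · simp only [List.length_cons]
        split_ifs
        · omega
        · have := h1 x; omega
      · simp only [List.length_cons]
        have := h2 y; omega
      · rcases Nat.eq_zero_or_pos i with rfl | hi
        · refine lt_of_le_of_lt (pt_mono F (A := fun x => A x ∧ R.1 x = true) (B := B) ?_
            (fun y h => h.1)) (by omega)
          intro x hx
          refine ⟨hx.1, ?_⟩
          by_contra hR
          have := hx.2
          simp only [if_neg hR] at this
          omega
        · refine lt_of_le_of_lt (pt_mono F ?_ (fun y h => h)) (h3 (i - 1) j)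
          intro x hx
          by_cases hR : R.1 x = true
          · have := hx.2
            simp only [if_pos hR] at this
            omega
          · have := hx.2
            simp only [if_neg hR] at this
            refine ⟨⟨hx.1, by simpa using hR⟩, by omega⟩
    · have hV' : Vd L A (fun y => B y ∧ R.2.1 y = false) F := by
        intro x y hx hy
        have h := hV x y hx hy.1
        rwa [List.find?_cons_of_neg (by simp [hy.2])] at h
      have hp' : pt F A (fun y => B y ∧ R.2.1 y = false) < 2 ^ (k + 1) :=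
        lt_of_le_of_lt (pt_mono F (fun x h => h) (fun y h => h.1)) hp
      obtain ⟨gA, gB, h1, h2, h3⟩ := ih _ _ hV' hp'
      refine ⟨gA, fun y => if R.2.1 y = true then 0 else gB y + 1, fun x => ?_, fun y => ?_, fun i j => ?_⟩
      · simp only [List.length_cons]
        have := h1 x; omega
      · simp only [List.length_cons]
        split_ifs
        · omega
        · have := h2 y; omega
      · rcases Nat.eq_zero_or_pos j with rfl | hj
        · refine lt_of_le_of_lt (pt_mono F (A := A) (B := fun y => B y ∧ R.2.1 y = true)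
            (fun x h => h.1) ?_) (by omega)
          intro y hy
          refine ⟨hy.1, ?_⟩
          by_contra hR
          have := hy.2
          simp only [if_neg hR] at this
          omega
        · refine lt_of_le_of_lt (pt_mono F (fun x h => h) ?_) (h3 i (j - 1))
          intro y hy
          by_cases hR : R.2.1 y = true
          · have := hy.2
            simp only [if_pos hR] at this
            omega
          · have := hy.2
            simp only [if_neg hR] at this
            refine ⟨⟨hy.1, by simpa using hR⟩, by omega⟩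

theorem proto_aux (F : X → Y → Bool) (L : List ((X → Bool) × (Y → Bool) × Bool)) : ∀ (k : ℕ)
    (A : X → Prop) (B : Y → Prop), Vd L A B F → pt F A B < 2 ^ k →
    ∃ G : X → Y → Bool, Proto G (k * (2 * Nat.clog 2 (L.length + 1))) ∧
      ∀ x y, A x → B y → G x y = F x y := by
  intro k
  induction k with
  | zero =>
    intro A B _ hp
    have h0 : pt F A B = 0 := by
      rw [pow_zero] at hp
      omega
    unfold pt at h0
    rcases Nat.mul_eq_zero.1 h0 with h | h
    · refine ⟨fun _ _ => false, ?_, fun x y hx hy => (rk_zero F h x y hx hy).symm⟩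
      rw [Nat.zero_mul]
      exact Proto.const _ false fun _ _ => rfl
    · refine ⟨fun _ _ => true, ?_, fun x y hx hy => ?_⟩
      · rw [Nat.zero_mul]
        exact Proto.const _ true fun _ _ => rfl
      · have := rk_zero _ h x y hx hy
        simpa using this.symm
  | succ k ih =>
    intro A B hV hp
    obtain ⟨gA, gB, h1, h2, h3⟩ := elim F k L A B hV hp
    have hsub : ∀ i j, Vd L (fun x => A x ∧ gA x = i) (fun y => B y ∧ gB y = j) F :=
      fun i j x y hx hy => hV x y hx.1 hy.1
    choose G hG1 hG2 using fun i j => ih _ _ (hsub i j) (h3 i j)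
    have hcard : Fintype.card (Fin (L.length + 1)) ≤ 2 ^ Nat.clog 2 (L.length + 1) := by
      rw [Fintype.card_fin]
      exact Nat.le_pow_clog (by norm_num) _
    refine ⟨fun x y => G (gA x) (gB y) x y, ?_, fun x y hx hy =>
      hG2 _ _ x y ⟨hx, rfl⟩ ⟨hy, rfl⟩⟩
    have e : (k + 1) * (2 * Nat.clog 2 (L.length + 1)) =
        (k * (2 * Nat.clog 2 (L.length + 1)) + Nat.clog 2 (L.length + 1)) +
          Nat.clog 2 (L.length + 1) := by ring
    rw [e]
    refine Proto.sendX _ (fun x => (⟨gA x, by have := h1 x; omega⟩ : Fin (L.length + 1))) _ hcard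
      (fun q x y => G q (gB y) x y) _ (fun q => ?_) (fun x y => rfl)
    exact Proto.sendY _ (fun y => (⟨gB y, by have := h2 y; omega⟩ : Fin (L.length + 1))) _ hcard
      (fun q' x y => G q q' x y) _ (fun q' => hG1 _ _) (fun x y => rfl)

end

/-- **PROTO.** -/
theorem PROTO : S_PROTO := by
  intro X Y _ _ F L hL k hk
  have e : ∀ H : X → Y → Bool, rk H (fun _ => True) (fun _ => True) = (Pool.Agent.H630R2.LR.comm H).rank := by
    intro H
    unfold rk Pool.Agent.H630R2.LR.comm
    simp
  obtain ⟨G, h1, h2⟩ := proto_aux F L k (fun _ => True) (fun _ => True)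
    (fun x y _ _ => hL x y) (by unfold pt; rw [e, e]; exact hk)
  have : G = F := by
    funext x y
    exact h2 x y trivial trivial
  rwa [this] at h1

end Pool.Agent.K1H94.AND
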