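import Pool.Agent.K1H94.AND.Stm

/-!
# RANK and MOB (helper16, for helper94)

The rank of the AND-matrix is at least the number of monomials; Moebius inversion on finite sets.
-/

set_option autoImplicit false

namespace Pool.Agent.K1H94.AND

open Finset

namespace RankAux

theorem mobius {ι : Type} [DecidableEq ι] (h : Finset ι → ℝ) (Y : Finset ι) :
    ∑ S ∈ Y.powerset, (-1 : ℝ) ^ S.card * ∑ T ∈ S.powerset, (-1 : ℝ) ^ T.card * h T = h Y := by
  induction Y using Finset.induction_on generalizing h with
  | empty => simp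
  | insert a Y ha ih =>
    rw [Finset.sum_powerset_insert ha, ← Finset.sum_add_distrib]
    have key : ∀ S ∈ Y.powerset, (-1 : ℝ) ^ S.card * ∑ T ∈ S.powerset, (-1 : ℝ) ^ T.card * h T +
        (-1 : ℝ) ^ (insert a S).card * ∑ T ∈ (insert a S).powerset, (-1 : ℝ) ^ T.card * h T =
        (-1 : ℝ) ^ S.card * ∑ T ∈ S.powerset, (-1 : ℝ) ^ T.card * h (insert a T) := by
      intro S hS
      have haS : a ∉ S := fun hh => ha (Finset.mem_powerset.1 hS hh)
      rw [Finset.sum_powerset_insert haS, Finset.card_insert_of_notMem haS]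
      have e : ∑ T ∈ S.powerset, (-1 : ℝ) ^ (insert a T).card * h (insert a T) =
          - ∑ T ∈ S.powerset, (-1 : ℝ) ^ T.card * h (insert a T) := by
        rw [← Finset.sum_neg_distrib]
        apply Finset.sum_congr rfl
        intro T hT
        have haT : a ∉ T := fun hh => haS (Finset.mem_powerset.1 hT hh)
        rw [Finset.card_insert_of_notMem haT, pow_succ]
        ring
      rw [e, pow_succ]
      ring
    rw [Finset.sum_congr rfl key]
    exact ih (fun T => h (insert a T))

open Classical in
/-- the Moebius matrix -/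
noncomputable def N (V : Type) : Matrix (Finset V) (Finset V) ℝ :=
  Matrix.of fun S x => if x ⊆ S then (-1 : ℝ) ^ (S.card + x.card) else 0

open Classical in
/-- the containment matrix -/
noncomputable def U (V : Type) : Matrix (Finset V) (Finset V) ℝ :=
  Matrix.of fun x R => if R ⊆ x then (1 : ℝ) else 0

theorem sgn_sq (n : ℕ) : (-1 : ℝ) ^ n * (-1 : ℝ) ^ n = 1 := by
  rw [← pow_add, ← two_mul, pow_mul]; norm_num

open Classical in
theorem N_mul_U (V : Type) [Fintype V] : N V * U V = 1 := by
  ext S R
  rw [Matrix.mul_apply]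
  have h := mobius (fun T : Finset V => if T = R then (1 : ℝ) else 0) S
  have h2 : ∑ x, N V S x * U V x R =
      (-1 : ℝ) ^ (S.card + R.card) *
        ∑ x ∈ S.powerset, (-1 : ℝ) ^ x.card *
          ∑ T ∈ x.powerset, (-1 : ℝ) ^ T.card * (if T = R then (1 : ℝ) else 0) := by
    rw [Finset.mul_sum]
    rw [← Finset.sum_subset (Finset.subset_univ S.powerset)]
    · apply Finset.sum_congr rfl
      intro x hx
      have hxS := Finset.mem_powerset.1 hx
      simp only [N, U, Matrix.of_apply, if_pos hxS, mul_ite, mul_one, mul_zero,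
        Finset.sum_ite_eq', Finset.mem_powerset]
      by_cases hR : R ⊆ x
      · rw [if_pos hR, if_pos hR, pow_add, pow_add]
        have := sgn_sq R.card
        linear_combination (-(-1 : ℝ) ^ S.card * (-1 : ℝ) ^ x.card) * this
      · rw [if_neg hR, if_neg hR]
    · intro x _ hx
      have : ¬ x ⊆ S := fun hh => hx (Finset.mem_powerset.2 hh)
      simp [N, this]
  rw [h2, h]
  by_cases hSR : S = R
  · subst hSR
    simp [← two_mul]
  · simp [hSR]

open Classical in
theorem mat_eq (V : Type) [Fintype V] (c : Finset V → ℝ) :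
    (Matrix.of (fun x y : Finset V => val c (x ∩ y))) =
      U V * Matrix.diagonal c * (U V).transpose := by
  ext x y
  rw [Matrix.mul_apply]
  simp only [Matrix.mul_diagonal, Matrix.transpose_apply, Matrix.of_apply, U, val]
  have : ∀ R : Finset V, (if R ⊆ x then (1 : ℝ) else 0) * c R * (if R ⊆ y then (1 : ℝ) else 0) =
      if R ∈ (x ∩ y).powerset then c R else 0 := by
    intro R
    have hm : R ∈ (x ∩ y).powerset ↔ R ⊆ x ∧ R ⊆ y := by
      rw [Finset.mem_powerset, Finset.subset_inter_iff]
    by_cases h1 : R ⊆ x <;> by_cases h2 : R ⊆ y <;> simp only [hm, h1, h2] <;> simp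
  rw [Finset.sum_congr rfl fun R _ => this R, Finset.sum_ite_mem, Finset.univ_inter]

end RankAux

open RankAux in
/-- **RANK**. -/
theorem RANK : S_RANK := by
  classical
  intro V _ c
  have h1 : Matrix.diagonal c =
      N V * (Matrix.of (fun x y : Finset V => val c (x ∩ y))) * (N V).transpose := by
    rw [mat_eq]
    have e1 := N_mul_U V
    have e2 : (U V).transpose * (N V).transpose = 1 := by
      rw [← Matrix.transpose_mul, e1, Matrix.transpose_one]
    calc Matrix.diagonal c = 1 * Matrix.diagonal c * 1 := by simp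
      _ = (N V * U V) * Matrix.diagonal c * ((U V).transpose * (N V).transpose) := by rw [e1, e2]
      _ = _ := by simp only [Matrix.mul_assoc]
  have h2 : (Matrix.diagonal c).rank ≤
      (Matrix.of (fun x y : Finset V => val c (x ∩ y))).rank := by
    rw [h1]
    exact (Matrix.rank_mul_le_left _ _).trans (Matrix.rank_mul_le_right _ _)
  have h3 := Matrix.rank_diagonal c
  rw [Fintype.card_subtype] at h3
  rw [h3] at h2
  convert h2 using 2

open RankAux in
/-- **MOB**. -/
theorem MOB : S_MOB := by
  classical
  intro V f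
  refine ⟨fun S => (-1 : ℝ) ^ S.card * ∑ T ∈ S.powerset, (-1 : ℝ) ^ T.card * f T, fun x => ?_⟩
  have := mobius f x
  unfold val
  convert this using 2

end Pool.Agent.K1H94.AND
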