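import Pool.Agent.K1H94.AND.Stm

/-!
# Piece T1 of the log-rank conjecture for AND-functions (helper2)
-/

set_option autoImplicit false

namespace Pool.Agent.K1H94.AND

open Finset Pool.Agent.H630R2.LR

namespace T1aux

lemma sum_two_card (q : ℕ) : ∑ Y : Finset (Fin q), 2 * Y.card = q * 2 ^ q := by
  classical
  have h1 : ∑ Y : Finset (Fin q), Yᶜ.card = ∑ Y : Finset (Fin q), Y.card :=
    Fintype.sum_bijective (fun Y : Finset (Fin q) => Yᶜ) compl_bijective _ _ (fun Y => rfl)
  have h2 : ∑ Y : Finset (Fin q), (Y.card + Yᶜ.card) = q * 2 ^ q := by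
    have : ∀ Y : Finset (Fin q), Y.card + Yᶜ.card = q := by
      intro Y
      rw [card_add_card_compl, Fintype.card_fin]
    rw [Finset.sum_congr rfl (fun Y _ => this Y), Finset.sum_const, Finset.card_univ,
      Fintype.card_finset, Fintype.card_fin, smul_eq_mul, mul_comm]
  rw [Finset.sum_add_distrib, h1] at h2
  rw [← Finset.mul_sum]
  omega

lemma card_above {q : ℕ} (T : Finset (Fin q)) :
    (univ.filter (fun Y : Finset (Fin q) => T ⊆ Y)).card = 2 ^ (q - T.card) := by
  classical
  have h : univ.filter (fun Y : Finset (Fin q) => T ⊆ Y) = Finset.Icc T univ := by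
    ext Y
    simp
  rw [h, Finset.card_Icc_finset (Finset.subset_univ T), Finset.card_univ, Fintype.card_fin]

/-- the averaging step: a large set with few bad subsets, thinned to contain none -/
lemma thin {q k : ℕ} (Bad : Finset (Finset (Fin q))) (hcard : Bad.card < 2 ^ (k + 1))
    (hbad : ∀ T ∈ Bad, k < T.card) :
    ∃ Y : Finset (Fin q), q ≤ 2 * Y.card + 1 ∧ ∀ T ∈ Bad, ¬ T ⊆ Y := by
  classical
  have hsum : ∑ Y : Finset (Fin q), (Bad.filter (fun T => T ⊆ Y)).card < 2 ^ q := by
    have e1 : ∑ Y : Finset (Fin q), (Bad.filter (fun T => T ⊆ Y)).card =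
        ∑ T ∈ Bad, 2 ^ (q - T.card) := by
      have e2 : ∀ Y : Finset (Fin q), (Bad.filter (fun T => T ⊆ Y)).card =
          ∑ T ∈ Bad, if T ⊆ Y then 1 else 0 := by
        intro Y
        rw [Finset.card_filter]
      rw [Finset.sum_congr rfl (fun Y _ => e2 Y), Finset.sum_comm]
      refine Finset.sum_congr rfl (fun T _ => ?_)
      rw [← Finset.card_filter, card_above]
    rw [e1]
    rcases Bad.eq_empty_or_nonempty with h | h
    · subst h
      simp
    · obtain ⟨T0, hT0⟩ := h
      have hq : k + 1 ≤ q := by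
        have h1 := hbad T0 hT0
        have h2 : T0.card ≤ q := by
          simpa using Finset.card_le_univ T0
        omega
      calc ∑ T ∈ Bad, 2 ^ (q - T.card) ≤ ∑ T ∈ Bad, 2 ^ (q - (k + 1)) := by
            refine Finset.sum_le_sum (fun T hT => ?_)
            refine Nat.pow_le_pow_right (by norm_num) ?_
            have h1 := hbad T hT
            omega
        _ = Bad.card * 2 ^ (q - (k + 1)) := by rw [Finset.sum_const, smul_eq_mul]
        _ < 2 ^ (k + 1) * 2 ^ (q - (k + 1)) := Nat.mul_lt_mul_of_pos_right hcard (by positivity)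
        _ = 2 ^ q := by rw [← pow_add]; congr 1; omega
  obtain ⟨Y, hY⟩ : ∃ Y : Finset (Fin q), q + 2 * (Bad.filter (fun T => T ⊆ Y)).card < 2 * Y.card + 2 := by
    by_contra hcon
    push Not at hcon
    have h1 : ∑ Y : Finset (Fin q), (2 * Y.card + 2) ≤
        ∑ Y : Finset (Fin q), (q + 2 * (Bad.filter (fun T => T ⊆ Y)).card) :=
      Finset.sum_le_sum (fun Y _ => hcon Y)
    rw [Finset.sum_add_distrib, Finset.sum_add_distrib, sum_two_card, ← Finset.mul_sum,
      Finset.sum_const, Finset.sum_const, Finset.card_univ, Fintype.card_finset,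
      Fintype.card_fin, smul_eq_mul, smul_eq_mul] at h1
    have h2 : 2 ^ q * q = q * 2 ^ q := mul_comm _ _
    omega
  -- choose an element in every set
  have hne : ∀ T ∈ Bad, ∃ j, j ∈ T := by
    intro T hT
    have h1 := hbad T hT
    exact Finset.card_pos.mp (by omega)
  rcases Nat.eq_zero_or_pos q with hq0 | hq0
  · subst hq0
    refine ⟨∅, by omega, ?_⟩
    intro T hT
    obtain ⟨j, _⟩ := hne T hT
    exact j.elim0
  have : Nonempty (Fin q) := ⟨⟨0, hq0⟩⟩
  choose! e he using hne
  refine ⟨Y \ (Bad.filter (fun T => T ⊆ Y)).image e, ?_, ?_⟩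
  · have h1 : Y.card ≤ (Y \ (Bad.filter (fun T => T ⊆ Y)).image e).card +
        ((Bad.filter (fun T => T ⊆ Y)).image e).card := by
      have := Finset.le_card_sdiff ((Bad.filter (fun T => T ⊆ Y)).image e) Y
      omega
    have h2 := Finset.card_image_le (s := Bad.filter (fun T => T ⊆ Y)) (f := e)
    omega
  · intro T hT hsub
    have h1 : T ⊆ Y := fun j hj => (Finset.mem_sdiff.mp (hsub hj)).1
    have h2 : e T ∈ Y \ (Bad.filter (fun T => T ⊆ Y)).image e := hsub (he T hT)
    exact (Finset.mem_sdiff.mp h2).2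
      (Finset.mem_image_of_mem e (Finset.mem_filter.mpr ⟨hT, h1⟩))

end T1aux

theorem T1 : S_T1 := by
  classical
  intro V c hB X b q r Z hbX hZX hZb hZZ hsens hr
  -- touched blocks
  set tch : Finset V → Finset (Fin q) := fun S => univ.filter (fun j => ¬ Disjoint S (Z j)) with htch
  set W : Finset (Fin q) → Finset V := fun Y => b ∪ Y.biUnion Z with hW
  have hsub : ∀ (S : Finset V) (Y : Finset (Fin q)), S ⊆ W Y ↔ S ⊆ W univ ∧ tch S ⊆ Y := by
    intro S Y
    constructor
    · intro h
      refine ⟨?_, ?_⟩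
      · intro v hv
        have h1 := h hv
        simp only [hW, Finset.mem_union, Finset.mem_biUnion] at h1 ⊢
        rcases h1 with h1 | ⟨j, _, h2⟩
        · exact Or.inl h1
        · exact Or.inr ⟨j, Finset.mem_univ _, h2⟩
      · intro j hj
        simp only [htch, Finset.mem_filter, Finset.mem_univ, true_and] at hj
        rw [Finset.not_disjoint_iff] at hj
        obtain ⟨v, hvS, hvZ⟩ := hj
        have h1 := h hvS
        simp only [hW, Finset.mem_union, Finset.mem_biUnion] at h1
        rcases h1 with h1 | ⟨i, hi, h2⟩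
        · exact absurd h1 (Finset.disjoint_left.mp (hZb j) hvZ)
        · by_cases hij : i = j
          · rw [← hij]; exact hi
          · exact absurd hvZ (Finset.disjoint_left.mp (hZZ hij) h2)
    · rintro ⟨h, ht⟩ v hv
      have h1 := h hv
      simp only [hW, Finset.mem_union, Finset.mem_biUnion] at h1 ⊢
      rcases h1 with h1 | ⟨j, _, h2⟩
      · exact Or.inl h1
      · refine Or.inr ⟨j, ht ?_, h2⟩
        simp only [htch, Finset.mem_filter, Finset.mem_univ, true_and]
        rw [Finset.not_disjoint_iff]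
        exact ⟨v, hv, h2⟩
  set c' : Finset (Fin q) → ℝ := fun T => ∑ S ∈ (W univ).powerset.filter (fun S => tch S = T), c S
    with hc'
  have hval : ∀ Y : Finset (Fin q), val c (W Y) = ∑ T ∈ Y.powerset, c' T := by
    intro Y
    have h1 : (W Y).powerset = (W univ).powerset.filter (fun S => tch S ⊆ Y) := by
      ext S
      rw [Finset.mem_powerset, Finset.mem_filter, Finset.mem_powerset, hsub S Y]
    have h2 : ∑ S ∈ (W univ).powerset.filter (fun S => tch S ⊆ Y), c S =
        ∑ T ∈ Y.powerset, ∑ S ∈ ((W univ).powerset.filter (fun S => tch S ⊆ Y)).filter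
          (fun S => tch S = T), c S := by
      refine (Finset.sum_fiberwise_of_maps_to ?_ _).symm
      intro S hS
      exact Finset.mem_powerset.mpr (Finset.mem_filter.mp hS).2
    unfold val
    rw [h1, h2]
    refine Finset.sum_congr rfl (fun T hT => ?_)
    rw [hc']
    refine Finset.sum_congr ?_ (fun _ _ => rfl)
    ext S
    simp only [Finset.mem_filter]
    constructor
    · rintro ⟨⟨h3, _⟩, h4⟩
      exact ⟨h3, h4⟩
    · rintro ⟨h3, h4⟩
      exact ⟨⟨h3, h4 ▸ Finset.mem_powerset.mp hT⟩, h4⟩
  have hWX : W univ ⊆ X := by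
    intro v hv
    simp only [hW, Finset.mem_union, Finset.mem_biUnion] at hv
    rcases hv with h1 | ⟨j, _, h2⟩
    · exact hbX h1
    · exact hZX j h2
  set k := Nat.log 2 r with hk
  set Bad : Finset (Finset (Fin q)) := univ.filter (fun T => c' T ≠ 0 ∧ k < T.card) with hBad
  have hBadcard : Bad.card < 2 ^ (k + 1) := by
    have h1 : Bad ⊆ (X.powerset.filter (fun S => S.Nonempty ∧ c S ≠ 0)).image tch := by
      intro T hT
      simp only [hBad, Finset.mem_filter, Finset.mem_univ, true_and] at hT
      obtain ⟨hT0, hTk⟩ := hT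
      obtain ⟨S, hS, hcS⟩ := Finset.exists_ne_zero_of_sum_ne_zero hT0
      rw [Finset.mem_filter, Finset.mem_powerset] at hS
      refine Finset.mem_image.mpr ⟨S, ?_, hS.2⟩
      rw [Finset.mem_filter, Finset.mem_powerset]
      refine ⟨hS.1.trans hWX, ?_, hcS⟩
      have hTne : T.Nonempty := Finset.card_pos.mp (by omega)
      obtain ⟨j, hj⟩ := hTne
      rw [← hS.2] at hj
      simp only [htch, Finset.mem_filter, Finset.mem_univ, true_and] at hj
      rw [Finset.not_disjoint_iff] at hj
      obtain ⟨v, hv, _⟩ := hj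
      exact ⟨v, hv⟩
    have h2 : Bad.card ≤ r := (Finset.card_le_card h1).trans (Finset.card_image_le.trans hr)
    exact lt_of_le_of_lt h2 (Nat.lt_pow_succ_log_self (by norm_num) r)
  obtain ⟨Y, hqY, hY⟩ := T1aux.thin (k := k) Bad hBadcard (by
    intro T hT
    simp only [hBad, Finset.mem_filter, Finset.mem_univ, true_and] at hT
    exact hT.2)
  have hkey : Y.card ≤ k ^ 2 := by
    set e : Fin Y.card → Fin q := fun i => (Y.equivFin.symm i : Fin q) with he
    have hinj : Function.Injective e := by
      intro i j hij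
      exact Y.equivFin.symm.injective (Subtype.ext hij)
    have hmem : ∀ i, e i ∈ Y := fun i => (Y.equivFin.symm i).2
    have hbi : ∀ A : Finset (Fin Y.card), A.biUnion (fun i => ({e i} : Finset (Fin q))) ⊆ Y := by
      intro A j hj
      rw [Finset.mem_biUnion] at hj
      obtain ⟨i, _, hi⟩ := hj
      rw [Finset.mem_singleton] at hi
      rw [hi]; exact hmem i
    set c2 : Finset (Fin q) → ℝ := fun S => if S ⊆ Y then c' S else 0 with hc2
    have hsum2 : ∀ I : Finset (Fin q), I ⊆ Y → ∑ S ∈ I.powerset, c2 S = val c (W I) := by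
      intro I hI
      rw [hval I]
      refine Finset.sum_congr rfl (fun S hS => ?_)
      rw [hc2]
      simp only
      rw [if_pos ((Finset.mem_powerset.mp hS).trans hI)]
    refine MARKOV.block_bound (k := k) c2 (fun i => ({e i} : Finset (Fin q))) ?_ ?_ ?_ ?_
    · intro i j hij
      simp only [Finset.disjoint_singleton]
      exact fun h => hij (hinj h)
    · intro S hS
      rw [hc2]
      simp only
      split_ifs with h
      · by_contra hne
        exact hY S (by
          simp only [hBad, Finset.mem_filter, Finset.mem_univ, true_and]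
          exact ⟨hne, hS⟩) h
      · rfl
    · intro A
      rw [hsum2 _ (hbi A)]
      exact hB _
    · intro j
      rw [hsum2 _ (Finset.singleton_subset_iff.mpr (hmem j))]
      have h1 : c2 ∅ = val c (W ∅) := by
        rw [← hsum2 ∅ (Finset.empty_subset _)]
        simp
      rw [h1]
      have h2 : W {e j} = b ∪ Z (e j) := by
        rw [hW]
        simp
      have h3 : W ∅ = b := by
        rw [hW]
        simp
      rw [h2, h3]
      exact hsens (e j)
  have := Nat.mul_le_mul_left 2 hkey
  omega

end Pool.Agent.K1H94.AND
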