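import Pool.Agent.K1H94.AND.DL
import Pool.Agent.K1H94.AND.T1
import Pool.Agent.K1H94.AND.Proto

/-!
# Functions `f (x ⊓ y)` on finite meet-semilattices: decision lists and protocols
-/

set_option autoImplicit false

namespace Pool.Agent.K1H94.AND

open Finset Pool.Agent.H630R2.LR

section semilattice

variable {S : Type} [Fintype S]

open scoped Classical in
/-- the summation map of a finite poset -/
noncomputable def summ (S : Type) [Fintype S] [PartialOrder S] : (S → ℝ) →ₗ[ℝ] (S → ℝ) where
  toFun c := fun x => ∑ w ∈ univ.filter (fun w => w ≤ x), c w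
  map_add' a b := by
    funext x
    simp [Finset.sum_add_distrib]
  map_smul' a b := by
    funext x
    simp [Finset.mul_sum]

open scoped Classical in
theorem summ_apply [PartialOrder S] (c : S → ℝ) (x : S) :
    summ S c x = ∑ w ∈ univ.filter (fun w => w ≤ x), c w := rfl

open scoped Classical in
theorem summ_injective [PartialOrder S] : Function.Injective (summ S) := by
  rw [injective_iff_map_eq_zero]
  intro c hc
  funext x
  induction x using WellFoundedLT.induction with
  | ind x ih =>
    have h1 := congrFun hc x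
    rw [summ_apply] at h1
    rw [Finset.sum_eq_single x] at h1
    · exact h1
    · intro w hw hne
      exact ih w (lt_of_le_of_ne (mem_filter.mp hw).2 hne)
    · intro h
      exfalso
      apply h
      simp

theorem summ_surjective [PartialOrder S] : Function.Surjective (summ S) :=
  LinearMap.surjective_of_injective summ_injective

open scoped Classical in
/-- Every function on a finite poset is a sum of coefficients over the elements below. -/
theorem exists_coeff [PartialOrder S] (f : S → ℝ) :
    ∃ c : S → ℝ, ∀ x, ∑ w ∈ univ.filter (fun w => w ≤ x), c w = f x := by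
  obtain ⟨c, hc⟩ := summ_surjective (S := S) f
  exact ⟨c, fun x => by rw [← summ_apply, hc]⟩

open scoped Classical in
/-- The rank of a meet matrix is at least the number of nonzero coefficients. -/
theorem card_le_rank [SemilatticeInf S] (c : S → ℝ) :
    (univ.filter (fun w : S => c w ≠ 0)).card ≤
      (Matrix.of (fun x y : S => ∑ w ∈ univ.filter (fun w => w ≤ x ⊓ y), c w)).rank := by
  set U : Matrix S S ℝ := Matrix.of (fun x w : S => if w ≤ x then (1 : ℝ) else 0) with hU
  have hmul : ∀ v : S → ℝ, U.mulVec v = summ S v := by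
    intro v
    funext x
    rw [summ_apply, Finset.sum_filter]
    simp only [Matrix.mulVec, dotProduct, hU, Matrix.of_apply]
    apply Finset.sum_congr rfl
    intro w _
    split_ifs <;> simp
  have hsurj : Function.Surjective U.mulVec := by
    intro g
    obtain ⟨v, hv⟩ := summ_surjective (S := S) g
    exact ⟨v, by rw [hmul, hv]⟩
  obtain ⟨B, hB⟩ := Matrix.mulVec_surjective_iff_exists_right_inverse.mp hsurj
  have hB' : B * U = 1 := mul_eq_one_comm.mp hB
  set F := Matrix.of (fun x y : S => ∑ w ∈ univ.filter (fun w => w ≤ x ⊓ y), c w) with hF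
  have hfac : F = U * Matrix.diagonal c * U.transpose := by
    ext x y
    rw [Matrix.mul_apply]
    simp only [Matrix.mul_diagonal, Matrix.transpose_apply, hF, hU, Matrix.of_apply]
    rw [Finset.sum_filter]
    apply Finset.sum_congr rfl
    intro w _
    by_cases h1 : w ≤ x <;> by_cases h2 : w ≤ y <;> simp [h1, h2]
  have hdiag : Matrix.diagonal c = B * F * B.transpose := by
    rw [hfac]
    calc Matrix.diagonal c = (B * U) * Matrix.diagonal c * (B * U).transpose := by
          rw [hB']; simp
      _ = B * (U * Matrix.diagonal c * U.transpose) * B.transpose := by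
          rw [Matrix.transpose_mul]
          simp only [Matrix.mul_assoc]
  calc (univ.filter (fun w : S => c w ≠ 0)).card = (Matrix.diagonal c).rank := by
        rw [Matrix.rank_diagonal, Fintype.card_subtype]
    _ = (B * F * B.transpose).rank := by rw [hdiag]
    _ ≤ (B * F).rank := Matrix.rank_mul_le_left _ _
    _ ≤ F.rank := Matrix.rank_mul_le_right _ _

open scoped Classical in
/-- the embedding of a semilattice into subsets -/
noncomputable def phi [SemilatticeInf S] (x : S) : Finset S := univ.filter (fun m => ¬ x ≤ m)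

theorem mem_phi [SemilatticeInf S] {x m : S} : m ∈ phi x ↔ ¬ x ≤ m := by
  simp [phi]

open scoped Classical in
/-- the extension of `f` to all subsets -/
noncomputable def ext [SemilatticeInf S] (f : S → Bool) (Z : Finset S) : Bool :=
  if h : (Zᶜ).Nonempty then f ((Zᶜ).inf' h id) else false

open scoped Classical in
theorem phi_subset_iff [SemilatticeInf S] (Z : Finset S) (h : (Zᶜ).Nonempty) (w : S) :
    phi w ⊆ Z ↔ w ≤ (Zᶜ).inf' h id := by
  rw [Finset.le_inf'_iff]
  constructor
  · intro hs m hm
    by_contra hcon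
    exact (mem_compl.mp hm) (hs (mem_phi.mpr hcon))
  · intro hs m hm
    by_contra hcon
    exact (mem_phi.mp hm) (hs m (mem_compl.mpr hcon))

open scoped Classical in
theorem ext_phi [SemilatticeInf S] (f : S → Bool) (x y : S) :
    ext f (phi x ∩ phi y) = f (x ⊓ y) := by
  have hx : x ∈ (phi x ∩ phi y)ᶜ := by
    rw [mem_compl, mem_inter, mem_phi, mem_phi]
    simp
  have hy : y ∈ (phi x ∩ phi y)ᶜ := by
    rw [mem_compl, mem_inter, mem_phi, mem_phi]
    simp
  unfold ext
  rw [dif_pos ⟨x, hx⟩]
  congr 1
  apply le_antisymm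
  · exact le_inf (Finset.inf'_le id hx) (Finset.inf'_le id hy)
  · rw [Finset.le_inf'_iff]
    intro m hm
    rw [mem_compl, mem_inter, mem_phi, mem_phi] at hm
    by_cases h : x ≤ m
    · exact inf_le_left.trans h
    · have : y ≤ m := by
        by_contra h2
        exact hm ⟨h, h2⟩
      exact inf_le_right.trans this

open scoped Classical in
/-- A meet matrix with few nonzero coefficients has a short decision list. -/
theorem meet_dl [SemilatticeInf S] (f : S → Bool) :
    ∃ L : List (Finset S × Bool),
      (∀ x y : S, (L.find? (fun p => decide (p.1 ⊆ phi x ∩ phi y))).map Prod.snd =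
        some (f (x ⊓ y))) ∧
      L.length ≤ ((comm (fun x y : S => f (x ⊓ y))).rank + 1 + 1) ^
        (1024 * (Nat.log 2 ((comm (fun x y : S => f (x ⊓ y))).rank + 1) + 1) ^ 5) := by
  obtain ⟨c, hc⟩ := exists_coeff (S := S) (fun x => if f x then (1 : ℝ) else 0)
  have hrank := card_le_rank (S := S) c
  have hmat : Matrix.of (fun x y : S => ∑ w ∈ univ.filter (fun w => w ≤ x ⊓ y), c w) =
      comm (fun x y : S => f (x ⊓ y)) := by
    ext x y
    rw [Matrix.of_apply, hc]
    rfl
  rw [hmat] at hrank
  set ρ := (comm (fun x y : S => f (x ⊓ y))).rank with hρ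
  set c' : Finset S → ℝ := fun Z => (∑ w ∈ univ.filter (fun w => phi w = Z), c w) +
    (if Z = univ then - ∑ w, c w else 0) with hc'
  have hval : ∀ Z, val c' Z = if ext f Z then 1 else 0 := by
    intro Z
    unfold val
    rw [hc', Finset.sum_add_distrib]
    have h1 : ∑ T ∈ Z.powerset, ∑ w ∈ univ.filter (fun w => phi w = T), c w =
        ∑ w ∈ univ.filter (fun w => phi w ⊆ Z), c w := by
      rw [← Finset.sum_fiberwise_of_maps_to (s := univ.filter (fun w => phi w ⊆ Z))
        (t := Z.powerset) (g := fun w => phi w)]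
      · apply Finset.sum_congr rfl
        intro T hT
        apply Finset.sum_congr _ (fun _ _ => rfl)
        ext w
        simp only [mem_filter, mem_univ, true_and]
        constructor
        · rintro rfl
          exact ⟨mem_powerset.mp hT, rfl⟩
        · exact fun h => h.2
      · intro w hw
        exact mem_powerset.mpr (mem_filter.mp hw).2
    rw [h1]
    by_cases hZ : (Zᶜ).Nonempty
    · have h2 : ∑ T ∈ Z.powerset, (if T = univ then - ∑ w, c w else 0) = 0 := by
        apply Finset.sum_eq_zero
        intro T hT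
        rw [if_neg]
        rintro rfl
        have := mem_powerset.mp hT
        obtain ⟨m, hm⟩ := hZ
        exact (mem_compl.mp hm) (this (mem_univ m))
      rw [h2, add_zero]
      have h3 : univ.filter (fun w => phi w ⊆ Z) =
          univ.filter (fun w => w ≤ (Zᶜ).inf' hZ id) := by
        ext w
        simp only [mem_filter, mem_univ, true_and]
        exact phi_subset_iff Z hZ w
      rw [h3, hc]
      unfold ext
      rw [dif_pos hZ]
    · have hZu : Z = univ := by
        rw [Finset.not_nonempty_iff_eq_empty, compl_eq_empty_iff] at hZ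
        exact hZ
      have h2 : ∑ T ∈ Z.powerset, (if T = univ then - ∑ w, c w else 0) = - ∑ w, c w := by
        rw [Finset.sum_ite_eq' Z.powerset univ, if_pos]
        rw [hZu]
        exact mem_powerset_self _
      rw [h2]
      have h3 : univ.filter (fun w => phi w ⊆ Z) = (univ : Finset S) := by
        rw [hZu]
        simp
      rw [h3]
      unfold ext
      rw [dif_neg hZ]
      simp
  have hcard : (univ.filter (fun T : Finset S => T.Nonempty ∧ c' T ≠ 0)).card ≤ ρ + 1 := by
    have hsub : univ.filter (fun T : Finset S => T.Nonempty ∧ c' T ≠ 0) ⊆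
        insert univ ((univ.filter (fun w : S => c w ≠ 0)).image phi) := by
      intro T hT
      rw [mem_filter] at hT
      rw [mem_insert, mem_image]
      by_cases hTu : T = univ
      · exact Or.inl hTu
      · right
        by_contra hcon
        apply hT.2.2
        simp only [hc']
        rw [if_neg hTu, add_zero]
        apply Finset.sum_eq_zero
        intro w hw
        by_contra hcw
        exact hcon ⟨w, mem_filter.mpr ⟨mem_univ _, hcw⟩, (mem_filter.mp hw).2⟩
    refine (card_le_card hsub).trans ((card_insert_le _ _).trans ?_)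
    have := card_image_le (s := univ.filter (fun w : S => c w ≠ 0)) (f := phi)
    omega
  obtain ⟨L, hL, hlen⟩ := DL T1 S c' (ext f) hval (ρ + 1) hcard
  refine ⟨L, ?_, hlen⟩
  intro x y
  have := hL (phi x ∩ phi y) trivial
  rw [ext_phi] at this
  exact this

theorem rank_add_le {X Y : Type} [Fintype X] [Fintype Y] (A B : Matrix X Y ℝ) :
    (A + B).rank ≤ A.rank + B.rank := by
  have h1 : LinearMap.range (A + B).mulVecLin ≤
      LinearMap.range A.mulVecLin ⊔ LinearMap.range B.mulVecLin := by
    rw [Matrix.mulVecLin_add]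
    rintro _ ⟨v, rfl⟩
    exact Submodule.add_mem_sup ⟨v, rfl⟩ ⟨v, rfl⟩
  exact (Submodule.finrank_mono h1).trans (Submodule.finrank_add_le_finrank_add_finrank _ _)

theorem rank_not_le {X Y : Type} [Fintype X] [Fintype Y] (F : X → Y → Bool) :
    (comm (fun x y => !F x y)).rank ≤ (comm F).rank + 1 := by
  classical
  have h1 : comm (fun x y => !F x y) =
      (Matrix.of (fun (_ : X) (_ : Y) => (1 : ℝ))) - comm F := by
    ext x y
    show (if (!F x y) = true then (1 : ℝ) else 0) = 1 - (if F x y = true then (1 : ℝ) else 0)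
    by_cases h : F x y = true <;> simp [h]
  have h2 : (Matrix.of (fun (_ : X) (_ : Y) => (1 : ℝ))).rank ≤ 1 := by
    have : (Matrix.of (fun (_ : X) (_ : Y) => (1 : ℝ))) =
        Matrix.vecMulVec (fun _ => (1 : ℝ)) (fun _ => (1 : ℝ)) := by
      ext x y
      simp [Matrix.vecMulVec_apply]
    rw [this]
    exact Matrix.rank_vecMulVec_le _ _
  rw [h1, sub_eq_add_neg]
  refine (rank_add_le _ _).trans ?_
  have h3 : (-comm F).rank ≤ (comm F).rank := by
    have : -comm F = (-1 : Matrix X X ℝ) * comm F := by simp
    rw [this]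
    exact Matrix.rank_mul_le_right _ _
  omega

/-- **The log-rank conjecture for meet matrices.** -/
theorem meet_proto [SemilatticeInf S] (f : S → Bool) :
    Proto (fun x y : S => f (x ⊓ y))
      (4100 * (Nat.log 2 ((comm (fun x y : S => f (x ⊓ y))).rank + 1) + 1) ^ 7) := by
  classical
  obtain ⟨L, hL, hlen⟩ := meet_dl f
  set ρ := (comm (fun x y : S => f (x ⊓ y))).rank with hρ
  set l := Nat.log 2 (ρ + 1) with hl
  have hlt : ρ + 1 < 2 ^ (l + 1) := Nat.lt_pow_succ_log_self (by norm_num) _
  set L' : List ((S → Bool) × (S → Bool) × Bool) :=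
    L.map (fun p => (fun x => decide (p.1 ⊆ phi x), fun y => decide (p.1 ⊆ phi y), p.2)) with hL'
  have hvalid : ∀ x y : S, (L'.find? (fun R => R.1 x && R.2.1 y)).map (fun R => R.2.2) =
      some (f (x ⊓ y)) := by
    intro x y
    rw [hL', List.find?_map, Option.map_map, ← hL x y]
    congr 1
    congr 1
    funext p
    simp only [Function.comp, Finset.subset_inter_iff, Bool.decide_and]
  have hk : (comm (fun x y : S => f (x ⊓ y))).rank *
      (comm (fun x y : S => !f (x ⊓ y))).rank < 2 ^ (2 * (l + 1)) := by
    have h1 := rank_not_le (fun x y : S => f (x ⊓ y))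
    rw [← hρ] at h1 ⊢
    calc ρ * (comm (fun x y : S => !f (x ⊓ y))).rank ≤ ρ * (ρ + 1) := Nat.mul_le_mul_left _ h1
      _ < 2 ^ (l + 1) * 2 ^ (l + 1) := by
          apply Nat.mul_lt_mul'' <;> omega
      _ = 2 ^ (2 * (l + 1)) := by rw [← pow_add]; congr 1; ring
  have h2 := PROTO S S (fun x y : S => f (x ⊓ y)) L' hvalid (2 * (l + 1)) hk
  refine h2.mono ?_
  have h3 : L'.length + 1 ≤ 2 ^ (1024 * (l + 1) ^ 6 + 1) := by
    rw [hL', List.length_map]
    have h4 : (ρ + 1 + 1) ^ (1024 * (l + 1) ^ 5) ≤ 2 ^ (1024 * (l + 1) ^ 6) := by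
      calc (ρ + 1 + 1) ^ (1024 * (l + 1) ^ 5) ≤ (2 ^ (l + 1)) ^ (1024 * (l + 1) ^ 5) :=
            Nat.pow_le_pow_left (by omega) _
        _ = 2 ^ (1024 * (l + 1) ^ 6) := by rw [← pow_mul]; congr 1; ring
    have h5 : 1 ≤ 2 ^ (1024 * (l + 1) ^ 6) := Nat.one_le_two_pow
    rw [pow_succ]
    omega
  have h6 : Nat.clog 2 (L'.length + 1) ≤ 1024 * (l + 1) ^ 6 + 1 :=
    (Nat.clog_mono_right 2 h3).trans (le_of_eq (Nat.clog_pow 2 _ (by norm_num)))
  calc 2 * (l + 1) * (2 * Nat.clog 2 (L'.length + 1))
      ≤ 2 * (l + 1) * (2 * (1024 * (l + 1) ^ 6 + 1)) :=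
        Nat.mul_le_mul_left _ (Nat.mul_le_mul_left _ h6)
    _ = 4096 * (l + 1) ^ 7 + 4 * (l + 1) := by ring
    _ ≤ 4096 * (l + 1) ^ 7 + 4 * (l + 1) ^ 7 := by
        apply Nat.add_le_add_left
        apply Nat.mul_le_mul_left
        calc l + 1 = (l + 1) ^ 1 := (pow_one _).symm
          _ ≤ (l + 1) ^ 7 := Nat.pow_le_pow_right (by omega) (by norm_num)
    _ = 4100 * (l + 1) ^ 7 := by ring

end semilattice

end Pool.Agent.K1H94.AND
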