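import Pool.Agent.K1H94.AND.Stm

/-!
# Restriction to the sets containing `C`, monomials in a downset, and counting classes
-/

set_option autoImplicit false

namespace Pool.Agent.K1H94.AND

open Finset

open scoped Classical in
/-- coefficients of `x ↦ val c (C ∪ x)` -/
noncomputable def shift {V : Type} [Fintype V] (c : Finset V → ℝ) (C : Finset V) : Finset V → ℝ :=
  fun U => ∑ S ∈ univ.filter (fun S : Finset V => S \ C = U), c S

open scoped Classical in
theorem val_shift {V : Type} [Fintype V] (c : Finset V → ℝ) (C x : Finset V) :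
    val (shift c C) x = val c (C ∪ x) := by
  unfold val shift
  have h1 : ∀ U ∈ x.powerset, ∑ S ∈ univ.filter (fun S : Finset V => S \ C = U), c S =
      ∑ S ∈ (C ∪ x).powerset.filter (fun S : Finset V => S \ C = U), c S := by
    intro U hU
    apply Finset.sum_congr _ (fun _ _ => rfl)
    ext S
    simp only [mem_filter, mem_univ, true_and, mem_powerset]
    constructor
    · rintro rfl
      refine ⟨?_, rfl⟩
      rw [mem_powerset] at hU
      intro v hv
      by_cases hC : v ∈ C
      · exact mem_union_left _ hC
      · exact mem_union_right _ (hU (mem_sdiff.mpr ⟨hv, hC⟩))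
    · exact fun h => h.2
  rw [Finset.sum_congr rfl h1]
  exact Finset.sum_fiberwise_of_maps_to (fun S hS => by
    rw [mem_powerset] at hS ⊢
    intro v hv
    rw [mem_sdiff] at hv
    rcases mem_union.mp (hS hv.1) with h | h
    · exact absurd h hv.2
    · exact h) c

open scoped Classical in
/-- the nonconstant monomials in the domain `D` -/
noncomputable def mon {V : Type} [Fintype V] (c : Finset V → ℝ) (D : Finset V → Prop) :
    Finset (Finset V) :=
  univ.filter (fun S : Finset V => D S ∧ S.Nonempty ∧ c S ≠ 0)

theorem mem_mon {V : Type} [Fintype V] {c : Finset V → ℝ} {D : Finset V → Prop} {S : Finset V} :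
    S ∈ mon c D ↔ D S ∧ S.Nonempty ∧ c S ≠ 0 := by
  simp [mon]

open scoped Classical in
/-- `S` is alone in its class modulo `C` -/
def Sing {V : Type} [Fintype V] (c : Finset V → ℝ) (D : Finset V → Prop) (C S : Finset V) : Prop :=
  D (C ∪ S) ∧ (S \ C).Nonempty ∧ ∀ R ∈ mon c D, R \ C = S \ C → R = S

open scoped Classical in
/-- number of monomials which are alone in their class modulo `C` -/
noncomputable def sg {V : Type} [Fintype V] (c : Finset V → ℝ) (D : Finset V → Prop)
    (C : Finset V) : ℕ := ((mon c D).filter (Sing c D C)).card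

open scoped Classical in
theorem card_shift {V : Type} [Fintype V] (c : Finset V → ℝ) (D : Finset V → Prop)
    (hD : ∀ S T : Finset V, S ⊆ T → D T → D S) (C : Finset V) :
    2 * (mon (shift c C) (fun x => D (C ∪ x))).card ≤ (mon c D).card + sg c D C := by
  set M := mon c D with hM
  set M' := mon (shift c C) (fun x => D (C ∪ x)) with hM'
  set fib : Finset V → Finset (Finset V) := fun U => M.filter (fun S => S \ C = U) with hfib
  have hdisj : ∀ (K : Finset (Finset V)), (K : Set (Finset V)) ⊆ M' → 
      Set.PairwiseDisjoint (K : Set (Finset V)) fib := by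
    intro K _ U _ U' _ hne
    rw [Function.onFun, Finset.disjoint_left]
    intro S hS hS'
    simp only [hfib, mem_filter] at hS hS'
    exact hne (hS.2.symm.trans hS'.2)
  have h1 : ∑ U ∈ M', (fib U).card ≤ M.card := by
    rw [← Finset.card_biUnion (fun U hU U' hU' hne => hdisj M' le_rfl hU hU' hne)]
    apply Finset.card_le_card
    intro S hS
    rw [mem_biUnion] at hS
    obtain ⟨U, _, hS⟩ := hS
    exact (mem_filter.mp hS).1
  have h2 : ∑ U ∈ M', ((fib U).filter (Sing c D C)).card ≤ sg c D C := by
    rw [← Finset.card_biUnion]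
    · apply Finset.card_le_card
      intro S hS
      rw [mem_biUnion] at hS
      obtain ⟨U, _, hS⟩ := hS
      rw [mem_filter] at hS ⊢
      exact ⟨(mem_filter.mp hS.1).1, hS.2⟩
    · intro U hU U' hU' hne
      exact Finset.disjoint_of_subset_left (filter_subset _ _)
        (Finset.disjoint_of_subset_right (filter_subset _ _) (hdisj M' le_rfl hU hU' hne))
  have h3 : ∀ U ∈ M', 2 ≤ (fib U).card + ((fib U).filter (Sing c D C)).card := by
    intro U hU
    rw [hM', mem_mon] at hU
    obtain ⟨hDU, hUne, hUc⟩ := hU
    have h4 : ∃ S, S \ C = U ∧ c S ≠ 0 := by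
      by_contra hcon
      push Not at hcon
      apply hUc
      unfold shift
      apply Finset.sum_eq_zero
      intro S hS
      exact hcon S (mem_filter.mp hS).2
    obtain ⟨S, hSU, hSc⟩ := h4
    have hSC : C ∪ S = C ∪ U := by
      rw [← hSU]
      ext v
      simp only [mem_union, mem_sdiff]
      tauto
    have hSM : S ∈ M := by
      rw [hM, mem_mon]
      refine ⟨hD S (C ∪ U) (by rw [← hSC]; exact subset_union_right) hDU, ?_, hSc⟩
      rw [← hSU] at hUne
      exact hUne.mono sdiff_subset
    have hSf : S ∈ fib U := mem_filter.mpr ⟨hSM, hSU⟩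
    by_cases hone : (fib U).card = 1
    · obtain ⟨S', hS'⟩ := card_eq_one.mp hone
      have hsing : Sing c D C S := by
        refine ⟨by rw [hSC]; exact hDU, by rw [hSU]; exact hUne, ?_⟩
        intro R hR hRS
        have hRf : R ∈ fib U := mem_filter.mpr ⟨hR, hRS.trans hSU⟩
        rw [hS', mem_singleton] at hRf hSf
        rw [hRf, hSf]
      have : 0 < ((fib U).filter (Sing c D C)).card :=
        card_pos.mpr ⟨S, mem_filter.mpr ⟨hSf, hsing⟩⟩
      omega
    · have : 0 < (fib U).card := card_pos.mpr ⟨S, hSf⟩
      omega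
  have h5 : ∑ U ∈ M', 2 ≤ ∑ U ∈ M', ((fib U).card + ((fib U).filter (Sing c D C)).card) :=
    Finset.sum_le_sum h3
  rw [Finset.sum_add_distrib, Finset.sum_const, smul_eq_mul] at h5
  omega

end Pool.Agent.K1H94.AND
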