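import Pool.Agent.H630R2.LR.M1
import Pool.Agent.H630R2.LR.M2

/-!
# The log-rank conjecture for AND-functions: definitions and pieces (helper94)

`V` finite, `c : Finset V → ℝ` the coefficients of the multilinear polynomial of a Boolean function on
the subsets of `V`.
-/

set_option autoImplicit false

namespace Pool.Agent.K1H94.AND

open Finset Pool.Agent.H630R2.LR

open Classical in
/-- The value at `x` of the multilinear polynomial with coefficients `c`. -/
noncomputable def val {V : Type} (c : Finset V → ℝ) (x : Finset V) : ℝ := ∑ S ∈ x.powerset, c S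

/-- the polynomial is `0/1`-valued -/
def IsBool {V : Type} (c : Finset V → ℝ) : Prop := ∀ x, val c x = 0 ∨ val c x = 1

/-- rank of the `0/1` matrix `F` restricted to `A × B` (masked by zero) -/
noncomputable def rk {X Y : Type} [Fintype X] [Fintype Y] (F : X → Y → Bool) (A : X → Prop)
    (B : Y → Prop) : ℕ :=
  open Classical in
  (Matrix.of (fun (x : X) (y : Y) => if A x ∧ B y ∧ F x y = true then (1 : ℝ) else 0)).rank

/-- `DLV L P f`: on the sets satisfying `P`, the decision list `L` of conjunctions computes `f`. -/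
def DLV {V : Type} [DecidableEq V] (L : List (Finset V × Bool)) (P : Finset V → Prop)
    (f : Finset V → Bool) : Prop :=
  ∀ x, P x → (L.find? (fun p => decide (p.1 ⊆ x))).map Prod.snd = some (f x)

/-! ### Pieces -/

/-- **T1** (block sensitivity bound from sparsity). -/
def S_T1 : Prop :=
  open Classical in
  ∀ (V : Type) (c : Finset V → ℝ), IsBool c → ∀ (X b : Finset V) (q r : ℕ) (Z : Fin q → Finset V),
    b ⊆ X → (∀ j, Z j ⊆ X) → (∀ j, Disjoint (Z j) b) →
    (Pairwise fun i j => Disjoint (Z i) (Z j)) →
    (∀ j, val c (b ∪ Z j) ≠ val c b) →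
    (X.powerset.filter (fun S => S.Nonempty ∧ c S ≠ 0)).card ≤ r →
    q ≤ 2 * (Nat.log 2 r) ^ 2 + 1

/-- **PROTO** (a decision list of `N` rectangles and small rank give a cheap protocol). -/
def S_PROTO : Prop :=
  ∀ (X Y : Type) [Fintype X] [Fintype Y] (F : X → Y → Bool)
    (L : List ((X → Bool) × (Y → Bool) × Bool)),
    (∀ x y, (L.find? (fun R => R.1 x && R.2.1 y)).map (fun R => R.2.2) = some (F x y)) →
    ∀ k : ℕ, (comm F).rank * (comm (fun x y => !F x y)).rank < 2 ^ k →
      Proto F (k * (2 * Nat.clog 2 (L.length + 1)))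

/-- **RANK** (the rank of the AND-matrix is at least the number of monomials). -/
def S_RANK : Prop :=
  open Classical in
  ∀ (V : Type) [Fintype V] (c : Finset V → ℝ),
    (univ.filter (fun S : Finset V => c S ≠ 0)).card ≤
      (Matrix.of (fun x y : Finset V => val c (x ∩ y))).rank

/-- **MOB** (every function has a multilinear polynomial). -/
def S_MOB : Prop :=
  ∀ (V : Type) (f : Finset V → ℝ), ∃ c : Finset V → ℝ, ∀ x, val c x = f x

/-- **DL** (a Boolean function with `r` monomials has a short decision list). -/
def S_DL : Prop :=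
  open Classical in
  ∀ (V : Type) [Fintype V] (c : Finset V → ℝ) (f : Finset V → Bool),
    (∀ x, val c x = if f x then 1 else 0) → ∀ R : ℕ,
    (univ.filter (fun S : Finset V => S.Nonempty ∧ c S ≠ 0)).card ≤ R →
    ∃ L : List (Finset V × Bool), DLV L (fun _ => True) f ∧
      L.length ≤ (R + 1) ^ (1024 * (Nat.log 2 R + 1) ^ 5)

end Pool.Agent.K1H94.AND
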