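import Pool.Agent.K1H94.AND.Shift

/-!
# Among any monomials `t 0, …, t n` with union in the domain, few are alone in their class modulo the
union of the others
-/

set_option autoImplicit false

namespace Pool.Agent.K1H94.AND

open Finset

open scoped Classical in
/-- If `val c` is constant on `b ∪ Z`, `Z ⊆ U`, then the class of `U` modulo `b` has sum zero. -/
theorem class_zero {V : Type} (c : Finset V → ℝ) (b U : Finset V) (hbU : Disjoint U b)
    (hconst : ∀ Z, Z ⊆ U → val c (b ∪ Z) = val c b) : ∀ Z : Finset V, Z ⊆ U → Z.Nonempty →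
    ∑ S ∈ (b ∪ Z).powerset.filter (fun S => S \ b = Z), c S = 0 := by
  have key : ∀ Z, Z ⊆ U → val c (b ∪ Z) =
      ∑ T ∈ Z.powerset, ∑ S ∈ (b ∪ T).powerset.filter (fun S => S \ b = T), c S := by
    intro Z hZ
    unfold val
    rw [← Finset.sum_fiberwise_of_maps_to (s := (b ∪ Z).powerset) (t := Z.powerset)
      (g := fun S => S \ b)]
    · apply Finset.sum_congr rfl
      intro T hT
      rw [mem_powerset] at hT
      apply Finset.sum_congr _ (fun _ _ => rfl)
      ext S
      simp only [mem_filter, mem_powerset]
      constructor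
      · rintro ⟨h1, h2⟩
        refine ⟨?_, h2⟩
        intro v hv
        by_cases hvb : v ∈ b
        · exact mem_union_left _ hvb
        · exact mem_union_right _ (by rw [← h2]; exact mem_sdiff.mpr ⟨hv, hvb⟩)
      · rintro ⟨h1, h2⟩
        exact ⟨h1.trans (union_subset_union_right hT), h2⟩
    · intro S hS
      rw [mem_powerset] at hS ⊢
      intro v hv
      rw [mem_sdiff] at hv
      rcases mem_union.mp (hS hv.1) with h | h
      · exact absurd h hv.2
      · exact h
  intro Z
  induction Z using Finset.strongInduction with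
  | H Z ih =>
    intro hZU hZne
    have h1 := key Z hZU
    have h2 := key ∅ (empty_subset _)
    rw [hconst Z hZU] at h1
    rw [union_empty] at h2
    rw [← Finset.sum_subset (s₁ := {∅, Z})] at h1
    · rw [Finset.sum_pair (Ne.symm hZne.ne_empty)] at h1
      simp only [powerset_empty, sum_singleton] at h2
      rw [h2] at h1
      linarith
    · intro T hT
      rw [mem_insert, mem_singleton] at hT
      rcases hT with rfl | rfl
      · exact empty_mem_powerset _
      · exact mem_powerset_self _
    · intro T hT hT'
      rw [mem_insert, mem_singleton, not_or] at hT'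
      rw [mem_powerset] at hT
      exact ih T (Finset.ssubset_iff_subset_ne.mpr ⟨hT, hT'.2⟩) (hT.trans hZU)
        (Finset.nonempty_iff_ne_empty.mpr hT'.1)

open scoped Classical in
theorem t2 (hT1 : S_T1) {V : Type} [Fintype V] (c : Finset V → ℝ) (hc : IsBool c)
    (D : Finset V → Prop) (hD : ∀ S T : Finset V, S ⊆ T → D T → D S) (n : ℕ)
    (t : Fin (n + 1) → Finset V) (ht : ∀ j, t j ∈ mon c D) :
    (univ.filter (fun j : Fin (n + 1) =>
      Sing c D (univ.biUnion (fun i : Fin n => t (j.succAbove i))) (t j))).card ≤
      2 * (Nat.log 2 (mon c D).card) ^ 2 + 1 := by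
  set Cm : Fin (n + 1) → Finset V := fun j => univ.biUnion (fun i : Fin n => t (j.succAbove i))
    with hCm
  set G := univ.filter (fun j : Fin (n + 1) => Sing c D (Cm j) (t j)) with hG
  rcases G.eq_empty_or_nonempty with h0 | ⟨j0, hj0⟩
  · rw [h0]; simp
  set X : Finset V := univ.biUnion t with hX
  set U : Fin (n + 1) → Finset V := fun j => t j \ Cm j with hU
  have hsub : ∀ j i, i ≠ j → t i ⊆ Cm j := by
    intro j i hij
    obtain ⟨z, hz⟩ := Fin.exists_succAbove_eq hij
    intro v hv
    simp only [hCm, mem_biUnion, mem_univ, true_and]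
    exact ⟨z, by rw [hz]; exact hv⟩
  have hCX : ∀ j, Cm j ⊆ X := by
    intro j v hv
    simp only [hCm, mem_biUnion, mem_univ, true_and] at hv
    obtain ⟨i, hi⟩ := hv
    simp only [hX, mem_biUnion, mem_univ, true_and]
    exact ⟨_, hi⟩
  have htX : ∀ j, t j ⊆ X := by
    intro j v hv
    simp only [hX, mem_biUnion, mem_univ, true_and]
    exact ⟨j, hv⟩
  have hXeq : ∀ j, Cm j ∪ t j = X := by
    intro j
    apply Finset.Subset.antisymm
    · exact union_subset (hCX j) (htX j)
    · intro v hv
      simp only [hX, mem_biUnion, mem_univ, true_and] at hv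
      obtain ⟨i, hi⟩ := hv
      by_cases hij : i = j
      · rw [hij] at hi; exact mem_union_right _ hi
      · exact mem_union_left _ (hsub j i hij hi)
  have hDX : D X := by
    have := (mem_filter.mp hj0).2.1
    rwa [hXeq] at this
  set b : Finset V := X \ G.biUnion U with hb
  have hUU : ∀ i j v, v ∈ U i → v ∈ t j → i = j := by
    intro i j v hv hvj
    by_contra hij
    exact (mem_sdiff.mp hv).2 (hsub i j (Ne.symm hij) hvj)
  have hUb : ∀ j ∈ G, Disjoint (U j) b := by
    intro j hj
    rw [Finset.disjoint_left]
    intro v hv hvb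
    exact (mem_sdiff.mp hvb).2 (mem_biUnion.mpr ⟨j, hj, hv⟩)
  have htb : ∀ j ∈ G, ∀ v ∈ t j, v ∉ U j → v ∈ b := by
    intro j hj v hv hvU
    rw [hb, mem_sdiff]
    refine ⟨htX j hv, ?_⟩
    intro hcon
    rw [mem_biUnion] at hcon
    obtain ⟨i, _, hi⟩ := hcon
    have := hUU i j v hi hv
    rw [this] at hi
    exact hvU hi
  have hex : ∀ j ∈ G, ∃ Z, Z ⊆ U j ∧ val c (b ∪ Z) ≠ val c b := by
    intro j hj
    by_contra hcon
    push Not at hcon
    obtain ⟨hs1, hs2, hs3⟩ := (mem_filter.mp hj).2
    have hz := class_zero c b (U j) (hUb j hj) hcon (U j) le_rfl hs2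
    rw [Finset.sum_eq_single (t j)] at hz
    · exact (mem_mon.mp (ht j)).2.2 hz
    · intro S hS hSne
      by_contra hcS
      apply hSne
      simp only [mem_filter, mem_powerset] at hS
      obtain ⟨hS1, hS2⟩ := hS
      have hSX : S ⊆ X := hS1.trans (union_subset sdiff_subset (sdiff_subset.trans (htX j)))
      apply hs3
      · rw [mem_mon]
        refine ⟨hD S X hSX hDX, ?_, hcS⟩
        have : (S \ b).Nonempty := by rw [hS2]; exact hs2
        exact this.mono sdiff_subset
      · show S \ Cm j = t j \ Cm j
        ext v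
        simp only [mem_sdiff]
        constructor
        · rintro ⟨hvS, hvC⟩
          refine ⟨?_, hvC⟩
          have hvX := hSX hvS
          rw [← hXeq j, mem_union] at hvX
          rcases hvX with h | h
          · exact absurd h hvC
          · exact h
        · rintro ⟨hvt, hvC⟩
          refine ⟨?_, hvC⟩
          have : v ∈ S \ b := by
            rw [hS2]
            exact mem_sdiff.mpr ⟨hvt, hvC⟩
          exact (mem_sdiff.mp this).1
    · intro hnot
      exfalso
      apply hnot
      simp only [mem_filter, mem_powerset]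
      refine ⟨?_, ?_⟩
      · intro v hv
        by_cases hvU : v ∈ U j
        · exact mem_union_right _ hvU
        · exact mem_union_left _ (htb j hj v hv hvU)
      · ext v
        rw [mem_sdiff]
        constructor
        · rintro ⟨hv, hvb⟩
          by_contra hvU
          exact hvb (htb j hj v hv hvU)
        · intro hv
          exact ⟨(mem_sdiff.mp hv).1, fun hvb => (Finset.disjoint_left.mp (hUb j hj)) hv hvb⟩
  choose! Z hZU hZs using hex
  set e := G.equivFin.symm with he
  have hmem : ∀ i, ((e i : G) : Fin (n + 1)) ∈ G := fun i => (e i).2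
  refine hT1 V c hc X b G.card (mon c D).card (fun i => Z (e i)) sdiff_subset ?_ ?_ ?_ ?_ ?_
  · intro i
    exact (hZU _ (hmem i)).trans (sdiff_subset.trans (htX _))
  · intro i
    exact Finset.disjoint_of_subset_left (hZU _ (hmem i)) (hUb _ (hmem i))
  · intro i j hij
    rw [Finset.disjoint_left]
    intro v hv hv'
    have h1 := hZU _ (hmem i) hv
    have h2 := hZU _ (hmem j) hv'
    have h3 := hUU _ _ v h1 (mem_sdiff.mp h2).1
    exact hij (e.injective (Subtype.ext h3))
  · intro i
    exact hZs _ (hmem i)
  · apply Finset.card_le_card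
    intro S hS
    simp only [mem_filter, mem_powerset] at hS
    rw [mem_mon]
    exact ⟨hD S X hS.1 hDX, hS.2.1, hS.2.2⟩

end Pool.Agent.K1H94.AND
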